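import Mathlib
import Pool.Agent.Helper22.ETModel

/-!
# Votes of sketches, decision trees and protocols

Definitions of the kinds of voters. The classes of vertices are the residues modulo 3.
-/

set_option autoImplicit false

namespace Pool.Agent.Helper8.VT

open Pool.Agent.Helper22.ETModel

/-- The flags of an instance. -/
abbrev Flags (n : ℕ) : Type := Fin n → Fin n → Bool

/-- Weights. -/
abbrev Wts (n : ℕ) : Type := Fin n → Fin n → ℤ

/-- The instance is complete tripartite: exactly the pairs of vertices with different residues
modulo 3 are edges. -/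
def Tripartite {n : ℕ} (I : Inst n) : Prop :=
  ∀ u v : Fin n, I.flag u v = true ↔ (u : ℕ) % 3 ≠ (v : ℕ) % 3

/-- Decision trees with at most `d` probes. A probe reads the weight in one cell; the further
course depends in an arbitrary way on the weight that has been read. A leaf carries the output. -/
inductive Tree (n : ℕ) : ℕ → Type
  | leaf {d : ℕ} (v : ℝ) : Tree n d
  | node {d : ℕ} (i j : Fin n) (next : ℤ → Tree n d) : Tree n (d + 1)

/-- The output of a decision tree on the weights `w`. -/
def Tree.eval {n : ℕ} : {d : ℕ} → Tree n d → Wts n → ℝ
  | _, .leaf v, _ => v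
  | _, .node i j next, w => (next (w i j)).eval w

/-- The block of player `p`: the weights in the cells inside class `p` and between the classes `p`
and `p + 1` (modulo 3); the other cells are filled with zeros. -/
def blk {n : ℕ} (p : Fin 3) (w : Wts n) : Wts n := fun u v =>
  if ((u : ℕ) % 3 = p ∧ ((v : ℕ) % 3 = p ∨ (v : ℕ) % 3 = (p + 1) % 3)) ∨
    ((v : ℕ) % 3 = p ∧ ((u : ℕ) % 3 = p ∨ (u : ℕ) % 3 = (p + 1) % 3)) then w u v else 0

/-- Decision trees with at most `d` adaptively chosen queries; every query is a mergeable sketch of
`q` bits: every cell contributes an element of the commutative monoid `S` with at most `2 ^ q`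
elements, which depends in an arbitrary way on the cell and its weight, and the answer is the sum
of the contributions. -/
inductive SkTree (n q : ℕ) : ℕ → Type 1
  | leaf {d : ℕ} (v : ℝ) : SkTree n q d
  | node {d : ℕ} (S : Type) (_ : AddCommMonoid S) (_ : Fintype S) (hS : Fintype.card S ≤ 2 ^ q)
      (φ : Fin n → Fin n → ℤ → S) (next : S → SkTree n q d) : SkTree n q (d + 1)

/-- The output of a sketch tree on the weights `w`. -/
def SkTree.eval {n q : ℕ} : {d : ℕ} → SkTree n q d → Wts n → ℝ
  | _, .leaf v, _ => v
  | _, .node _ _ _ _ φ next, w => (next (∑ i, ∑ j, φ i j (w i j))).eval w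

/-- Deterministic communication protocols of three players with at most `d` bits. At a node player
`p` announces a bit that depends in an arbitrary way on the block of player `p`. A leaf carries
the output. -/
inductive Proto (n : ℕ) : ℕ → Type
  | leaf {d : ℕ} (v : ℝ) : Proto n d
  | node {d : ℕ} (p : Fin 3) (bit : Wts n → Bool) (next : Bool → Proto n d) : Proto n (d + 1)

/-- The output of a protocol on the weights `w`. -/
def Proto.eval {n : ℕ} : {d : ℕ} → Proto n d → Wts n → ℝ
  | _, .leaf v, _ => v
  | _, .node p bit next, w => (next (bit (blk p w))).eval w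

/-- `H` is computed by decision trees that know the flags and probe at most `B` weights,
adaptively. -/
def IsProbe {n : ℕ} (B : ℕ) (H : Inst n → ℝ) : Prop :=
  ∃ t : Flags n → Tree n B, ∀ I : Inst n, I.Valid → H I = (t I.flag).eval I.wt

/-- `H` is a function of the flags and of a mergeable sketch of the weights with at most `2 ^ B`
values: every cell contributes an element of a commutative monoid `S` with at most `2 ^ B`
elements, which depends in an arbitrary way on the cell, its weight and the flags, and `H` is an
arbitrary function of the flags and the sum of the contributions. -/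
def IsSketch {n : ℕ} (B : ℕ) (H : Inst n → ℝ) : Prop :=
  ∃ (S : Type) (_ : AddCommMonoid S) (_ : Fintype S), Fintype.card S ≤ 2 ^ B ∧
    ∃ (φ : Flags n → Fin n → Fin n → ℤ → S) (u : Flags n → S → ℝ), ∀ I : Inst n, I.Valid →
      H I = u I.flag (∑ i, ∑ j, φ I.flag i j (I.wt i j))

/-- `H` is an arbitrary function of the flags and of three messages of `B` bits; message `p` is an
arbitrary function of the flags and the block of player `p`. -/
def IsSimul {n : ℕ} (B : ℕ) (H : Inst n → ℝ) : Prop :=
  ∃ (M : Flags n → Fin 3 → Wts n → Fin (2 ^ B)) (u : Flags n → (Fin 3 → Fin (2 ^ B)) → ℝ),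
    ∀ I : Inst n, I.Valid → H I = u I.flag (fun p => M I.flag p (blk p I.wt))

/-- `H` is computed by deterministic protocols of the three players (all of them know the flags)
with at most `B` bits. -/
def IsProto {n : ℕ} (B : ℕ) (H : Inst n → ℝ) : Prop :=
  ∃ P : Flags n → Proto n B, ∀ I : Inst n, I.Valid → H I = (P I.flag).eval I.wt

/-- `H` is computed by decision trees that know the flags and ask at most `d` adaptively chosen
sketches of `q` bits. -/
def IsSkTree {n : ℕ} (q d : ℕ) (H : Inst n → ℝ) : Prop :=
  ∃ t : Flags n → SkTree n q d, ∀ I : Inst n, I.Valid → H I = (t I.flag).eval I.wt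

/-- Linear decision trees with at most `d` adaptively chosen queries; the answer to a query is the
value of an integer linear form in all the weights, whose coefficients are at most `K` in absolute
value. -/
inductive LinTree (n K : ℕ) : ℕ → Type
  | leaf {d : ℕ} (v : ℝ) : LinTree n K d
  | node {d : ℕ} (c : Fin n → Fin n → ℤ) (hc : ∀ i j, |c i j| ≤ K) (next : ℤ → LinTree n K d) :
      LinTree n K (d + 1)

/-- The output of a linear decision tree on the weights `w`. -/
def LinTree.eval {n K : ℕ} : {d : ℕ} → LinTree n K d → Wts n → ℝ
  | _, .leaf v, _ => v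
  | _, .node c _ next, w => (next (∑ i, ∑ j, c i j * w i j)).eval w

/-- `H` is computed by linear decision trees that know the flags, with coefficients at most `K`
and depth at most `d`. -/
def IsLinTree {n : ℕ} (K d : ℕ) (H : Inst n → ℝ) : Prop :=
  ∃ t : Flags n → LinTree n K d, ∀ I : Inst n, I.Valid → H I = (t I.flag).eval I.wt

/-- `κ` is the price of the voter `H` on `n` vertices: the votes are between `0` and `1`, and for
some `B ≥ 1` either `H` is a function of three messages of `B` bits or is computed by decision
trees with `B` probes, and the price is `B ^ (3/2)`; or `H` is computed by protocols with `B` bits,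
and the price is `B * min B n`. -/
def Price {n : ℕ} (H : Inst n → ℝ) (κ : ℝ) : Prop :=
  (∀ I : Inst n, I.Valid → 0 ≤ H I ∧ H I ≤ 1) ∧ ∃ B : ℕ, 1 ≤ B ∧
    (((IsSimul B H ∨ IsProbe B H) ∧ κ = (B : ℝ) ^ (3 / 2 : ℝ)) ∨
      (IsProto B H ∧ κ = B * min (B : ℝ) n))

end Pool.Agent.Helper8.VT
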