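import Pool.Agent.Helper8.VT.Base
import Pool.Agent.Helper98.VT.Gamma
import Pool.Agent.Helper8.VS.TreeL

/-!
The influence of a function that is constant on the boxes of a partition into few boxes.
-/

set_option autoImplicit false
set_option linter.unusedSectionVars false

open Finset
open scoped BigOperators

namespace Pool.Agent.Helper8.VT

open Pool.Agent.Helper8.VS (resample resample' expect_prod tri_sq ind ind_nonneg ind_le_one
  ind_true ind_false)

variable {m Q : ℕ} [NeZero Q]

/-- Probability of a set. -/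
noncomputable def pS (R : Cfg m Q → Prop) : ℝ := 𝔼 X, ind (R X)

/-- Probability of a set when one coordinate is fixed. -/
noncomputable def pC (R : Cfg m Q → Prop) (e : Fin m × Fin m) (a : ZMod Q) : ℝ :=
  𝔼 X, ind (R (Function.update X e a))

/-- Density of one coordinate in a set. -/
noncomputable def den (R : Cfg m Q → Prop) (e : Fin m × Fin m) (a : ZMod Q) : ℝ :=
  pC R e a / pS R

theorem pS_nonneg (R : Cfg m Q → Prop) : 0 ≤ pS R := Finset.expect_nonneg fun _ _ => ind_nonneg _

theorem pS_le_one (R : Cfg m Q → Prop) : pS R ≤ 1 :=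
  Finset.expect_le Finset.univ_nonempty fun _ _ => ind_le_one _

theorem pC_nonneg (R : Cfg m Q → Prop) (e : Fin m × Fin m) (a : ZMod Q) : 0 ≤ pC R e a :=
  Finset.expect_nonneg fun _ _ => ind_nonneg _

theorem den_nonneg (R : Cfg m Q → Prop) (e : Fin m × Fin m) (a : ZMod Q) : 0 ≤ den R e a :=
  div_nonneg (pC_nonneg R e a) (pS_nonneg R)

theorem expect_pC (R : Cfg m Q → Prop) (e : Fin m × Fin m) : 𝔼 a, pC R e a = pS R :=
  resample' e (fun X => ind (R X))

theorem expect_den (R : Cfg m Q → Prop) (hR : 0 < pS R) (e : Fin m × Fin m) :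
    𝔼 a, den R e a = 1 := by
  unfold den
  rw [← Finset.expect_div, expect_pC, div_self hR.ne']

theorem hel_nonneg (f : ZMod Q → ℝ) : 0 ≤ hel f := Finset.expect_nonneg fun _ _ => sq_nonneg _

theorem hel_eq (f : ZMod Q → ℝ) (h : ∀ a, 0 ≤ f a) (m1 : 𝔼 a, f a = 1) :
    hel f = 𝔼 a, (2 * f a - 2 * √(f a)) := by
  unfold hel
  have e : ∀ a, (√(f a) - 1) ^ 2 = f a - 2 * √(f a) + 1 := by
    intro a
    have := Real.sq_sqrt (h a)
    nlinarith
  simp only [e, Finset.expect_add_distrib, Finset.expect_sub_distrib, ← Finset.mul_expect, m1,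
    Finset.expect_const Finset.univ_nonempty]
  ring

theorem hel_le_two (f : ZMod Q → ℝ) (h : ∀ a, 0 ≤ f a) (m1 : 𝔼 a, f a = 1) : hel f ≤ 2 := by
  rw [hel_eq f h m1]
  simp only [Finset.expect_sub_distrib, ← Finset.mul_expect, m1]
  have : 0 ≤ 𝔼 a, √(f a) := Finset.expect_nonneg fun _ _ => Real.sqrt_nonneg _
  linarith

theorem hel_le_ent (f : ZMod Q → ℝ) (h : ∀ a, 0 ≤ f a) (m1 : 𝔼 a, f a = 1) :
    hel f ≤ 𝔼 a, f a * Real.log (f a) := by
  rw [hel_eq f h m1]
  refine Finset.expect_le_expect fun a _ => ?_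
  rcases (h a).eq_or_lt with h0 | h0
  · rw [← h0]; simp
  · have hs := Real.sqrt_pos.2 h0
    have e1 : Real.log (f a) = -(2 * Real.log (1 / √(f a))) := by
      rw [Real.log_div one_ne_zero hs.ne', Real.log_one, Real.log_sqrt h0.le]; ring
    have e2 : Real.log (1 / √(f a)) ≤ 1 / √(f a) - 1 :=
      Real.log_le_sub_one_of_pos (by positivity)
    have e3 : f a * (1 / √(f a)) = √(f a) := by
      rw [mul_one_div, Real.div_sqrt]
    rw [e1]
    nlinarith [mul_le_mul_of_nonneg_left e2 h0.le]

/-- Superadditivity: the coordinates of a uniform point of a large set are nearly uniform. -/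
theorem sum_hel (R : Cfg m Q → Prop) (hR : 0 < pS R) :
    ∑ e, hel (den R e) ≤ -Real.log (pS R) := by
  classical
  set p := pS R with hp
  have h1 : ∀ e, 𝔼 a, den R e a * Real.log (den R e a) =
      (𝔼 X, ind (R X) * Real.log (den R e (X e))) / p := by
    intro e
    rw [← resample e (fun X a => ind (R X) * Real.log (den R e a)), Finset.expect_div]
    refine Finset.expect_congr rfl fun a _ => ?_
    rw [← Finset.expect_mul]
    show pC R e a / p * _ = pC R e a * _ / p
    ring
  have h2 : ∀ X : Cfg m Q, ind (R X) * ∑ e, Real.log (den R e (X e)) ≤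
      p * (∏ e, den R e (X e)) - ind (R X) - ind (R X) * Real.log p := by
    intro X
    by_cases hX : R X
    · rw [ind_true hX]
      have hpos : ∀ e, 0 < den R e (X e) := by
        intro e
        refine div_pos ?_ hR
        unfold pC
        refine Finset.expect_pos' (fun Y _ => ind_nonneg _) ⟨X, Finset.mem_univ _, ?_⟩
        rw [Function.update_eq_self, ind_true hX]
        exact one_pos
      have e1 : Real.log (p * ∏ e, den R e (X e)) =
          Real.log p + ∑ e, Real.log (den R e (X e)) := by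
        rw [Real.log_mul hR.ne' (Finset.prod_ne_zero_iff.2 fun e _ => (hpos e).ne'),
          Real.log_prod (fun e _ => (hpos e).ne')]
      have e2 := Real.log_le_sub_one_of_pos
        (mul_pos hR (Finset.prod_pos fun e _ => hpos e) : 0 < p * ∏ e, den R e (X e))
      linarith
    · rw [ind_false hX]
      have : 0 ≤ p * ∏ e, den R e (X e) :=
        mul_nonneg hR.le (Finset.prod_nonneg fun e _ => den_nonneg R e _)
      linarith
  have h3 : 𝔼 X : Cfg m Q, ∏ e, den R e (X e) = 1 := by
    rw [expect_prod (fun e a => den R e a)]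
    simp only [expect_den R hR, Finset.prod_const_one]
  calc ∑ e, hel (den R e) ≤ ∑ e, 𝔼 a, den R e a * Real.log (den R e a) :=
        Finset.sum_le_sum fun e _ => hel_le_ent _ (den_nonneg R e) (expect_den R hR e)
    _ = (𝔼 X : Cfg m Q, ind (R X) * ∑ e, Real.log (den R e (X e))) / p := by
        simp only [h1]
        rw [← Finset.sum_div]
        congr 1
        rw [← Finset.expect_sum_comm]
        refine Finset.expect_congr rfl fun X _ => ?_
        rw [Finset.mul_sum]
    _ ≤ (𝔼 X : Cfg m Q, (p * (∏ e, den R e (X e)) - ind (R X) -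
          ind (R X) * Real.log p)) / p :=
        div_le_div_of_nonneg_right (Finset.expect_le_expect fun X _ => h2 X) hR.le
    _ = (p * 1 - p - p * Real.log p) / p := by
        congr 1
        rw [Finset.expect_sub_distrib, Finset.expect_sub_distrib, ← Finset.mul_expect, h3,
          ← Finset.expect_mul]
        rfl
    _ = -Real.log p := by
        field_simp
        ring

/-- The three sets of a box. -/
structure Box (m Q : ℕ) where
  R1 : Cfg m Q → Prop
  R2 : Cfg m Q → Prop
  R3 : Cfg m Q → Prop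

/-- Indicator of a box. -/
noncomputable def Box.ib (b : Box m Q) (X Y Z : Cfg m Q) : ℝ :=
  ind (b.R1 X) * ind (b.R2 Y) * ind (b.R3 Z)

theorem Box.bas_ib (b : Box m Q) : bas b.ib = pS b.R1 * pS b.R2 * pS b.R3 := by
  unfold bas Box.ib pS
  simp only [← Finset.mul_expect, ← Finset.expect_mul]

theorem Box.pla_ib (b : Box m Q) (i j k : Fin m) : pla b.ib i j k =
    𝔼 a, 𝔼 c, pC b.R1 (i, j) a * pC b.R2 (j, k) c * pC b.R3 (k, i) (-a - c) := by
  unfold pla gT Box.ib pC
  simp only [← Finset.mul_expect, ← Finset.expect_mul]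

/-- Bound for the deficit at one triangle. -/
noncomputable def Box.bd (b : Box m Q) (i j k : Fin m) : ℝ :=
  32 * √(hel (den b.R1 (i, j)) * hel (den b.R2 (j, k)) * hel (den b.R3 (k, i))) +
    88 * (hel (den b.R1 (i, j)) * hel (den b.R2 (j, k)) +
      hel (den b.R2 (j, k)) * hel (den b.R3 (k, i)) +
      hel (den b.R3 (k, i)) * hel (den b.R1 (i, j)))

theorem Box.bd_nonneg (b : Box m Q) (i j k : Fin m) : 0 ≤ b.bd i j k := by
  have h1 := hel_nonneg (den b.R1 (i, j))
  have h2 := hel_nonneg (den b.R2 (j, k))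
  have h3 := hel_nonneg (den b.R3 (k, i))
  unfold Box.bd
  positivity

theorem Box.deficit (b : Box m Q) (i j k : Fin m) :
    bas b.ib - pla b.ib i j k ≤ bas b.ib * b.bd i j k := by
  have n1 := pS_nonneg b.R1
  have n2 := pS_nonneg b.R2
  have n3 := pS_nonneg b.R3
  rcases n1.eq_or_lt with z1 | z1
  · have : bas b.ib = 0 := by rw [b.bas_ib, ← z1]; ring
    have hp := pla_nonneg b.ib (fun X Y Z => mul_nonneg (mul_nonneg (ind_nonneg _)
      (ind_nonneg _)) (ind_nonneg _)) i j k
    rw [this]; linarith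
  rcases n2.eq_or_lt with z2 | z2
  · have : bas b.ib = 0 := by rw [b.bas_ib, ← z2]; ring
    have hp := pla_nonneg b.ib (fun X Y Z => mul_nonneg (mul_nonneg (ind_nonneg _)
      (ind_nonneg _)) (ind_nonneg _)) i j k
    rw [this]; linarith
  rcases n3.eq_or_lt with z3 | z3
  · have : bas b.ib = 0 := by rw [b.bas_ib, ← z3]; ring
    have hp := pla_nonneg b.ib (fun X Y Z => mul_nonneg (mul_nonneg (ind_nonneg _)
      (ind_nonneg _)) (ind_nonneg _)) i j k
    rw [this]; linarith
  have hg := gamma_ge (den b.R1 (i, j)) (den b.R2 (j, k)) (den b.R3 (k, i))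
    (den_nonneg _ _) (den_nonneg _ _) (den_nonneg _ _) (expect_den _ z1 _) (expect_den _ z2 _)
    (expect_den _ z3 _)
  have hpos : 0 < bas b.ib := by rw [b.bas_ib]; positivity
  have e : pla b.ib i j k = bas b.ib *
      𝔼 a, 𝔼 c, den b.R1 (i, j) a * den b.R2 (j, k) c * den b.R3 (k, i) (-a - c) := by
    rw [b.pla_ib, b.bas_ib, Finset.mul_expect]
    refine Finset.expect_congr rfl fun a _ => ?_
    rw [Finset.mul_expect]
    refine Finset.expect_congr rfl fun c _ => ?_
    unfold den
    field_simp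
  rw [e]
  calc bas b.ib - bas b.ib *
      (𝔼 a, 𝔼 c, den b.R1 (i, j) a * den b.R2 (j, k) c * den b.R3 (k, i) (-a - c)) =
      bas b.ib * (1 - 𝔼 a, 𝔼 c, den b.R1 (i, j) a * den b.R2 (j, k) c *
        den b.R3 (k, i) (-a - c)) := by ring
    _ ≤ bas b.ib * b.bd i j k := mul_le_mul_of_nonneg_left hg hpos.le

/-- Sums over the triangles. -/
theorem sum_mul_le (x y : Fin m → Fin m → ℝ) (hx : ∀ i j, 0 ≤ x i j) (hy : ∀ i j, 0 ≤ y i j) :
    ∑ i, ∑ j, ∑ k, x i j * y j k ≤ (∑ i, ∑ j, x i j) * ∑ j, ∑ k, y j k := by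
  have h : ∀ i j, ∑ k, x i j * y j k ≤ x i j * ∑ j', ∑ k, y j' k := by
    intro i j
    rw [← Finset.mul_sum]
    refine mul_le_mul_of_nonneg_left ?_ (hx i j)
    exact Finset.single_le_sum (f := fun j => ∑ k, y j k)
      (fun _ _ => Finset.sum_nonneg fun _ _ => hy _ _) (Finset.mem_univ j)
  calc _ ≤ ∑ i, ∑ j, x i j * ∑ j', ∑ k, y j' k :=
        Finset.sum_le_sum fun i _ => Finset.sum_le_sum fun j _ => h i j
    _ = _ := by simp only [← Finset.sum_mul]

/-- Both bounds for the sum over the triangles of the deficit. -/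
theorem sum_bd (x y z : Fin m → Fin m → ℝ) (hx : ∀ i j, 0 ≤ x i j) (hy : ∀ i j, 0 ≤ y i j)
    (hz : ∀ i j, 0 ≤ z i j) (hx2 : ∀ i j, x i j ≤ 2) (hy2 : ∀ i j, y i j ≤ 2)
    (hz2 : ∀ i j, z i j ≤ 2) (b1 b2 b3 : ℝ) (h1 : ∑ i, ∑ j, x i j ≤ b1)
    (h2 : ∑ i, ∑ j, y i j ≤ b2) (h3 : ∑ i, ∑ j, z i j ≤ b3) :
    ∑ i, ∑ j, ∑ k, (32 * √(x i j * y j k * z k i) +
      88 * (x i j * y j k + y j k * z k i + z k i * x i j)) ≤
      16 * (b1 + b2 + b3) + 46 * (b1 + b2 + b3) ^ 2 ∧
    ∑ i, ∑ j, ∑ k, (32 * √(x i j * y j k * z k i) +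
      88 * (x i j * y j k + y j k * z k i + z k i * x i j)) ≤ 208 * m * (b1 + b2 + b3) := by
  set X := ∑ i, ∑ j, x i j with hX
  set Y := ∑ i, ∑ j, y i j with hY
  set Z := ∑ i, ∑ j, z i j with hZ
  have hX0 : 0 ≤ X := Finset.sum_nonneg fun _ _ => Finset.sum_nonneg fun _ _ => hx _ _
  have hY0 : 0 ≤ Y := Finset.sum_nonneg fun _ _ => Finset.sum_nonneg fun _ _ => hy _ _
  have hZ0 : 0 ≤ Z := Finset.sum_nonneg fun _ _ => Finset.sum_nonneg fun _ _ => hz _ _
  have hsplit : ∑ i, ∑ j, ∑ k, (32 * √(x i j * y j k * z k i) +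
      88 * (x i j * y j k + y j k * z k i + z k i * x i j)) =
      32 * (∑ i, ∑ j, ∑ k, √(x i j * y j k * z k i)) +
      88 * ((∑ i, ∑ j, ∑ k, x i j * y j k) + (∑ i, ∑ j, ∑ k, y j k * z k i) +
        ∑ i, ∑ j, ∑ k, z k i * x i j) := by
    simp only [Finset.sum_add_distrib, ← Finset.mul_sum]
  rw [hsplit]
  have r1 : ∑ i, ∑ j, ∑ k, √(x i j * y j k * z k i) ≤ √(X * Y * Z) := by
    have ht := tri_sq (fun i j => √(x i j)) (fun i j => √(y i j)) (fun i j => √(z i j))
    simp only [Real.sq_sqrt (hx _ _), Real.sq_sqrt (hy _ _), Real.sq_sqrt (hz _ _)] at ht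
    refine Real.le_sqrt_of_sq_le (le_trans (le_of_eq ?_) ht)
    congr 1
    refine Finset.sum_congr rfl fun i _ => Finset.sum_congr rfl fun j _ =>
      Finset.sum_congr rfl fun k _ => ?_
    rw [Real.sqrt_mul (mul_nonneg (hx _ _) (hy _ _)), Real.sqrt_mul (hx _ _)]
  have p1 : ∑ i, ∑ j, ∑ k, x i j * y j k ≤ X * Y := sum_mul_le x y hx hy
  have p2 : ∑ i, ∑ j, ∑ k, y j k * z k i ≤ Y * Z := by
    have := sum_mul_le y z hy hz
    refine le_trans (le_of_eq ?_) this
    rw [Finset.sum_comm]
    refine Finset.sum_congr rfl fun j _ => ?_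
    rw [Finset.sum_comm]
  have p3 : ∑ i, ∑ j, ∑ k, z k i * x i j ≤ Z * X := by
    have := sum_mul_le z x hz hx
    refine le_trans (le_of_eq ?_) this
    rw [Finset.sum_comm (f := fun k i => ∑ j, z k i * x i j)]
    refine Finset.sum_congr rfl fun i _ => ?_
    rw [Finset.sum_comm]
  constructor
  · set b := b1 + b2 + b3 with hb
    have hb0 : 0 ≤ b := by linarith
    have q1 : √(X * Y * Z) ≤ (b + b ^ 2) / 2 := by
      refine Real.sqrt_le_iff.2 ⟨by positivity, ?_⟩
      have a1 : X * Y ≤ b ^ 2 := by nlinarith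
      have a2 : X * Y * Z ≤ b ^ 2 * b := mul_le_mul a1 (by linarith) hZ0 (by positivity)
      have a3 : b ^ 2 * b ≤ ((b + b ^ 2) / 2) ^ 2 := by nlinarith [sq_nonneg (b - b ^ 2)]
      linarith
    have q2 : X * Y + Y * Z + Z * X ≤ b ^ 2 / 3 := by
      have s1 : X + Y + Z ≤ b := by linarith
      have s2 : (X + Y + Z) ^ 2 ≤ b ^ 2 := pow_le_pow_left₀ (by positivity) s1 2
      nlinarith [sq_nonneg (X - Y), sq_nonneg (Y - Z), sq_nonneg (Z - X)]
    nlinarith
  · have hm : (0 : ℝ) ≤ m := Nat.cast_nonneg m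
    have t1 : ∑ i, ∑ j, ∑ k, √(x i j * y j k * z k i) ≤ m * (X + Y) := by
      have e : ∀ i j k, √(x i j * y j k * z k i) ≤ x i j + y j k := by
        intro i j k
        refine Real.sqrt_le_iff.2 ⟨add_nonneg (hx _ _) (hy _ _), ?_⟩
        have a1 := hx i j
        have a2 := hy j k
        have a3 : x i j * y j k * z k i ≤ x i j * y j k * 2 :=
          mul_le_mul_of_nonneg_left (hz2 _ _) (mul_nonneg a1 a2)
        nlinarith [sq_nonneg (x i j - y j k), mul_nonneg a1 a2]
      calc _ ≤ ∑ i, ∑ j, ∑ k : Fin m, (x i j + y j k) :=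
            Finset.sum_le_sum fun i _ => Finset.sum_le_sum fun j _ =>
              Finset.sum_le_sum fun k _ => e i j k
        _ = m * (X + Y) := by
            simp only [Finset.sum_add_distrib, Finset.sum_const, Finset.card_univ,
              Fintype.card_fin, nsmul_eq_mul, ← Finset.mul_sum]
            rw [← hX, ← hY]
            ring
    have t2 : ∑ i, ∑ j, ∑ k, x i j * y j k ≤ 2 * m * X := by
      calc _ ≤ ∑ i, ∑ j, ∑ _k : Fin m, x i j * 2 :=
            Finset.sum_le_sum fun i _ => Finset.sum_le_sum fun j _ =>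
              Finset.sum_le_sum fun k _ => mul_le_mul_of_nonneg_left (hy2 _ _) (hx _ _)
        _ = 2 * m * X := by
            simp only [Finset.sum_const, Finset.card_univ, Fintype.card_fin, nsmul_eq_mul,
              ← Finset.mul_sum, ← Finset.sum_mul]
            rw [← hX]
            ring
    have t3 : ∑ i, ∑ j, ∑ k, y j k * z k i ≤ 2 * m * Y := by
      calc _ ≤ ∑ _i : Fin m, ∑ j, ∑ k, y j k * 2 :=
            Finset.sum_le_sum fun i _ => Finset.sum_le_sum fun j _ =>
              Finset.sum_le_sum fun k _ => mul_le_mul_of_nonneg_left (hz2 _ _) (hy _ _)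
        _ = 2 * m * Y := by
            simp only [Finset.sum_const, Finset.card_univ, Fintype.card_fin, nsmul_eq_mul,
              ← Finset.sum_mul]
            rw [← hY]
            ring
    have t4 : ∑ i, ∑ j, ∑ k, z k i * x i j ≤ 2 * m * Z := by
      calc _ ≤ ∑ i : Fin m, ∑ _j : Fin m, ∑ k, z k i * 2 :=
            Finset.sum_le_sum fun i _ => Finset.sum_le_sum fun j _ =>
              Finset.sum_le_sum fun k _ => mul_le_mul_of_nonneg_left (hx2 _ _) (hz _ _)
        _ = 2 * m * Z := by
            rw [Finset.sum_comm]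
            simp only [Finset.sum_const, Finset.card_univ, Fintype.card_fin, nsmul_eq_mul,
              ← Finset.sum_mul]
            rw [Finset.sum_comm, ← hZ]
            ring
    have s1 : X + Y + Z ≤ b1 + b2 + b3 := by linarith
    have s2 : (m : ℝ) * (X + Y + Z) ≤ m * (b1 + b2 + b3) := mul_le_mul_of_nonneg_left s1 hm
    have s3 : (m : ℝ) * (X + Y) ≤ m * (b1 + b2 + b3) :=
      mul_le_mul_of_nonneg_left (by linarith) hm
    have s4 : 0 ≤ (m : ℝ) * (b1 + b2 + b3) := mul_nonneg hm (by linarith)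
    have s5 : 2 * (m : ℝ) * X + 2 * m * Y + 2 * m * Z = 2 * (m * (X + Y + Z)) := by ring
    have s6 : 208 * (m : ℝ) * (b1 + b2 + b3) = 208 * (m * (b1 + b2 + b3)) := by ring
    rw [s6]
    linarith

/-- Entropy bounds. -/
theorem entropy {Λ : Type} [Fintype Λ] (μ : Λ → ℝ) (h0 : ∀ l, 0 ≤ μ l) (h1 : ∑ l, μ l = 1)
    (L : ℝ) (hL : Real.log (Fintype.card Λ) ≤ L) :
    ∑ l, μ l * (-Real.log (μ l)) ≤ L ∧
    ∑ l, μ l * (-Real.log (μ l)) ^ 2 ≤ L ^ 2 + 2 * L + 4 := by
  have hne : Nonempty Λ := by
    by_contra h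
    rw [not_nonempty_iff] at h
    simp at h1
  have hN : (0 : ℝ) < Fintype.card Λ := by exact_mod_cast Fintype.card_pos
  set N : ℝ := (Fintype.card Λ : ℝ) with hNdef
  have hN1 : 1 ≤ N := by
    rw [hNdef]; exact_mod_cast Fintype.card_pos
  have hL0 : 0 ≤ Real.log N := Real.log_nonneg hN1
  have hle : ∀ l, μ l ≤ 1 := fun l => by
    rw [← h1]
    exact Finset.single_le_sum (f := μ) (fun _ _ => h0 _) (Finset.mem_univ l)
  have hsumN : ∑ _l : Λ, (1 / N : ℝ) = 1 := by
    rw [Finset.sum_const, Finset.card_univ, nsmul_eq_mul, ← hNdef]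
    field_simp
  have hlog : ∀ l, 0 < μ l → -Real.log (μ l) = Real.log N + Real.log (1 / (μ l * N)) := by
    intro l hl
    rw [Real.log_div one_ne_zero (by positivity), Real.log_one, Real.log_mul hl.ne' hN.ne']
    ring
  constructor
  · calc ∑ l, μ l * (-Real.log (μ l)) ≤ ∑ l, (μ l * Real.log N + (1 / N - μ l)) := by
          refine Finset.sum_le_sum fun l _ => ?_
          rcases (h0 l).eq_or_lt with z | z
          · rw [← z]; simp [hN.le]
          · rw [hlog l z]
            have h2 := Real.log_le_sub_one_of_pos (by positivity : 0 < 1 / (μ l * N))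
            have h3 : μ l * (1 / (μ l * N)) = 1 / N := by field_simp
            nlinarith [mul_le_mul_of_nonneg_left h2 z.le]
      _ = Real.log N := by
          rw [Finset.sum_add_distrib, Finset.sum_sub_distrib, ← Finset.sum_mul, h1, hsumN]
          ring
      _ ≤ L := hL
  · have hpt : ∀ l, μ l * (-Real.log (μ l)) ^ 2 ≤
        μ l * Real.log N ^ 2 + (2 * Real.log N + 4) * (1 / N) := by
      intro l
      rcases (h0 l).eq_or_lt with z | z
      · rw [← z]
        have : 0 ≤ (2 * Real.log N + 4) * (1 / N) := by positivity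
        simpa using this
      · have ht : 0 < 1 / (μ l * N) := by positivity
        have hb0 : 0 ≤ -Real.log (μ l) := by
          have := Real.log_nonpos z.le (hle l)
          linarith
        have h3 : μ l * (1 / (μ l * N)) = 1 / N := by field_simp
        have key : (-Real.log (μ l)) ^ 2 ≤
            Real.log N ^ 2 + (2 * Real.log N + 4) * (1 / (μ l * N)) := by
          rcases le_or_gt (Real.log (1 / (μ l * N))) 0 with hle' | hgt
          · have : -Real.log (μ l) ≤ Real.log N := by rw [hlog l z]; linarith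
            have h4 := pow_le_pow_left₀ hb0 this 2
            have h5 : 0 ≤ (2 * Real.log N + 4) * (1 / (μ l * N)) := by positivity
            linarith
          · have h4 := Real.log_le_sub_one_of_pos ht
            have h5 : Real.log (1 / (μ l * N)) ^ 2 ≤ 4 * (1 / (μ l * N)) := by
              have hs : 0 < √(1 / (μ l * N)) := Real.sqrt_pos.2 ht
              have h6 := Real.log_le_sub_one_of_pos hs
              rw [Real.log_sqrt ht.le] at h6
              have h7 : Real.log (1 / (μ l * N)) ≤ 2 * √(1 / (μ l * N)) := by linarith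
              have h8 := pow_le_pow_left₀ hgt.le h7 2
              rw [mul_pow, Real.sq_sqrt ht.le] at h8
              linarith
            rw [hlog l z]
            nlinarith [mul_le_mul_of_nonneg_left h4 hL0]
        calc μ l * (-Real.log (μ l)) ^ 2 ≤
            μ l * (Real.log N ^ 2 + (2 * Real.log N + 4) * (1 / (μ l * N))) :=
              mul_le_mul_of_nonneg_left key z.le
          _ = μ l * Real.log N ^ 2 + (2 * Real.log N + 4) * (μ l * (1 / (μ l * N))) := by ring
          _ = _ := by rw [h3]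
    calc ∑ l, μ l * (-Real.log (μ l)) ^ 2 ≤
        ∑ l, (μ l * Real.log N ^ 2 + (2 * Real.log N + 4) * (1 / N)) :=
          Finset.sum_le_sum fun l _ => hpt l
      _ = Real.log N ^ 2 + (2 * Real.log N + 4) := by
          rw [Finset.sum_add_distrib, ← Finset.sum_mul, h1, ← Finset.mul_sum, hsumN]
          ring
      _ ≤ L ^ 2 + 2 * L + 4 := by nlinarith

/-- Total influence of a function constant on the boxes of a partition into at most `2 ^ B`
boxes. -/
theorem box_total {Λ : Type} [Fintype Λ] (b : Λ → Box m Q)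
    (hpart : ∀ X Y Z, ∑ l, (b l).ib X Y Z = 1) (v : Λ → ℝ) (hv : ∀ l, 0 ≤ v l ∧ v l ≤ 1)
    (B : ℕ) (hB : 1 ≤ B) (hcard : Fintype.card Λ ≤ 2 ^ B) :
    ∑ i, ∑ j, ∑ k, |dT (fun X Y Z => ∑ l, v l * (b l).ib X Y Z) i j k| ≤
      300 * (B * min (B : ℝ) m) := by
  classical
  set μ : Λ → ℝ := fun l => bas (b l).ib with hμ
  have hμ0 : ∀ l, 0 ≤ μ l := fun l => bas_nonneg _ fun X Y Z =>
    mul_nonneg (mul_nonneg (ind_nonneg _) (ind_nonneg _)) (ind_nonneg _)
  have hμ1 : ∑ l, μ l = 1 := by
    have h := bas_sum Finset.univ (fun l => (b l).ib)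
    simp only [hpart, bas_const] at h
    exact h.symm
  have hpla1 : ∀ i j k, ∑ l, pla (b l).ib i j k = 1 := by
    intro i j k
    have h := pla_sum Finset.univ (fun l => (b l).ib) i j k
    simp only [hpart, pla_const] at h
    exact h.symm
  have hB1 : (1 : ℝ) ≤ B := by exact_mod_cast hB
  have hlog2 := Real.log_two_lt_d9
  have hlog2' : 0 < Real.log 2 := Real.log_pos one_lt_two
  have hne : Nonempty Λ := by
    by_contra h
    rw [not_nonempty_iff] at h
    simp at hμ1
  have hL : Real.log (Fintype.card Λ) ≤ 0.7 * B := by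
    have h1 : (Fintype.card Λ : ℝ) ≤ 2 ^ B := by exact_mod_cast hcard
    have h2 := Real.log_le_log (by exact_mod_cast Fintype.card_pos) h1
    rw [Real.log_pow] at h2
    nlinarith
  obtain ⟨ent1, ent2⟩ := entropy μ hμ0 hμ1 (0.7 * B) hL
  -- one triangle
  have hone : ∀ i j k, |dT (fun X Y Z => ∑ l, v l * (b l).ib X Y Z) i j k| ≤
      ∑ l, μ l * (b l).bd i j k := by
    intro i j k
    rw [dT_sum v (fun l => (b l).ib)]
    have hd : ∀ l, -(μ l * (b l).bd i j k) ≤ dT (b l).ib i j k := by
      intro l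
      have := (b l).deficit i j k
      unfold dT
      simp only [hμ]
      linarith
    have hn : ∀ l, 0 ≤ μ l * (b l).bd i j k := fun l =>
      mul_nonneg (hμ0 l) ((b l).bd_nonneg i j k)
    have hs : ∑ l, dT (b l).ib i j k = 0 := by
      unfold dT
      rw [Finset.sum_sub_distrib, hpla1]
      rw [← hμ1]; ring
    rw [abs_le]
    constructor
    · rw [← Finset.sum_neg_distrib]
      refine Finset.sum_le_sum fun l _ => ?_
      have h1 := hd l
      have h2 := hv l
      have h3 := hn l
      nlinarith [mul_nonneg h2.1 (by linarith : 0 ≤ dT (b l).ib i j k + μ l * (b l).bd i j k),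
        mul_nonneg (by linarith : 0 ≤ 1 - v l) h3]
    · have e : ∑ l, v l * dT (b l).ib i j k = ∑ l, (v l - 1) * dT (b l).ib i j k := by
        simp only [sub_mul, one_mul, Finset.sum_sub_distrib, hs, sub_zero]
      rw [e]
      refine Finset.sum_le_sum fun l _ => ?_
      have h1 := hd l
      have h2 := hv l
      have h3 := hn l
      nlinarith [mul_nonneg (by linarith : 0 ≤ 1 - v l)
        (by linarith : 0 ≤ dT (b l).ib i j k + μ l * (b l).bd i j k), mul_nonneg h2.1 h3]
  have htot : ∑ i, ∑ j, ∑ k, |dT (fun X Y Z => ∑ l, v l * (b l).ib X Y Z) i j k| ≤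
      ∑ l, μ l * ∑ i, ∑ j, ∑ k, (b l).bd i j k := by
    calc _ ≤ ∑ i : Fin m, ∑ j : Fin m, ∑ k : Fin m, ∑ l, μ l * (b l).bd i j k :=
          Finset.sum_le_sum fun i _ => Finset.sum_le_sum fun j _ => Finset.sum_le_sum fun k _ =>
            hone i j k
      _ = _ := by
          have c1 : ∀ i j : Fin m, ∑ k : Fin m, ∑ l, μ l * (b l).bd i j k =
              ∑ l, μ l * ∑ k : Fin m, (b l).bd i j k := fun i j => by
            rw [Finset.sum_comm]
            exact Finset.sum_congr rfl fun s _ => by rw [Finset.mul_sum]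
          have c2 : ∀ i : Fin m, ∑ j : Fin m, ∑ l, μ l * ∑ k : Fin m, (b l).bd i j k =
              ∑ l, μ l * ∑ j : Fin m, ∑ k : Fin m, (b l).bd i j k := fun i => by
            rw [Finset.sum_comm]
            exact Finset.sum_congr rfl fun s _ => by rw [Finset.mul_sum]
          simp only [c1, c2]
          rw [Finset.sum_comm]
          exact Finset.sum_congr rfl fun s _ => by rw [Finset.mul_sum]
  -- one box
  have hbox : ∀ l, μ l * ∑ i, ∑ j, ∑ k, (b l).bd i j k ≤
        μ l * (16 * (-Real.log (μ l)) + 46 * (-Real.log (μ l)) ^ 2) ∧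
      μ l * ∑ i, ∑ j, ∑ k, (b l).bd i j k ≤ μ l * (208 * m * (-Real.log (μ l))) := by
    intro l
    rcases (hμ0 l).eq_or_lt with z | z
    · rw [← z]; simp
    · have hprod : μ l = pS (b l).R1 * pS (b l).R2 * pS (b l).R3 := (b l).bas_ib
      have n1 := pS_nonneg (b l).R1
      have n2 := pS_nonneg (b l).R2
      have n3 := pS_nonneg (b l).R3
      have z1 : 0 < pS (b l).R1 := lt_of_le_of_ne n1 fun h => by
        rw [hprod, ← h] at z; simp at z
      have z2 : 0 < pS (b l).R2 := lt_of_le_of_ne n2 fun h => by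
        rw [hprod, ← h] at z; simp at z
      have z3 : 0 < pS (b l).R3 := lt_of_le_of_ne n3 fun h => by
        rw [hprod, ← h] at z; simp at z
      have hlogs : -Real.log (μ l) = -Real.log (pS (b l).R1) + -Real.log (pS (b l).R2) +
          -Real.log (pS (b l).R3) := by
        rw [hprod, Real.log_mul (by positivity) z3.ne', Real.log_mul z1.ne' z2.ne']
        ring
      have sh : ∀ R : Cfg m Q → Prop, 0 < pS R →
          ∑ i, ∑ j, hel (den R (i, j)) ≤ -Real.log (pS R) := by
        intro R hR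
        have := sum_hel R hR
        rwa [Fintype.sum_prod_type] at this
      have h := sum_bd (fun i j => hel (den (b l).R1 (i, j))) (fun i j => hel (den (b l).R2 (i, j)))
        (fun i j => hel (den (b l).R3 (i, j))) (fun _ _ => hel_nonneg _) (fun _ _ => hel_nonneg _)
        (fun _ _ => hel_nonneg _)
        (fun i j => hel_le_two _ (den_nonneg _ _) (expect_den _ z1 _))
        (fun i j => hel_le_two _ (den_nonneg _ _) (expect_den _ z2 _))
        (fun i j => hel_le_two _ (den_nonneg _ _) (expect_den _ z3 _))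
        _ _ _ (sh _ z1) (sh _ z2) (sh _ z3)
      rw [hlogs]
      exact ⟨mul_le_mul_of_nonneg_left h.1 z.le, mul_le_mul_of_nonneg_left h.2 z.le⟩
  have hm : (0 : ℝ) ≤ m := Nat.cast_nonneg m
  refine htot.trans ?_
  rcases le_total (B : ℝ) m with hBm | hBm
  · rw [min_eq_left hBm]
    calc ∑ l, μ l * ∑ i, ∑ j, ∑ k, (b l).bd i j k
        ≤ ∑ l, μ l * (16 * (-Real.log (μ l)) + 46 * (-Real.log (μ l)) ^ 2) :=
          Finset.sum_le_sum fun l _ => (hbox l).1
      _ = 16 * (∑ l, μ l * (-Real.log (μ l))) + 46 * ∑ l, μ l * (-Real.log (μ l)) ^ 2 := by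
          rw [Finset.mul_sum, Finset.mul_sum, ← Finset.sum_add_distrib]
          refine Finset.sum_congr rfl fun l _ => ?_
          ring
      _ ≤ 300 * (B * B) := by nlinarith
  · rw [min_eq_right hBm]
    calc ∑ l, μ l * ∑ i, ∑ j, ∑ k, (b l).bd i j k
        ≤ ∑ l, μ l * (208 * m * (-Real.log (μ l))) := Finset.sum_le_sum fun l _ => (hbox l).2
      _ = 208 * m * ∑ l, μ l * (-Real.log (μ l)) := by
          rw [Finset.mul_sum]
          refine Finset.sum_congr rfl fun l _ => ?_
          ring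
      _ ≤ 208 * m * (0.7 * B) := mul_le_mul_of_nonneg_left ent1 (by positivity)
      _ ≤ 300 * (B * m) := by nlinarith [mul_nonneg hm (by linarith : (0 : ℝ) ≤ B)]

end Pool.Agent.Helper8.VT
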