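import Pool.Agent.Helper8.VT.InstL
import Pool.Agent.Helper8.VT.BoxL

/-!
The lower bound.
-/

set_option autoImplicit false
set_option linter.unusedSectionVars false

open Finset
open scoped BigOperators

namespace Pool.Agent.Helper8.VT

open Pool.Agent.Helper22.ETModel
open Pool.Agent.Helper8.VS (resample' ind ind_nonneg ind_le_one ind_true ind_false)

section
variable {n m Q : ℕ} [NeZero Q]

/-- A uniform coordinate avoids a given value. -/
theorem point (e : Fin m × Fin m) (z : ZMod Q) : 𝔼 X : Cfg m Q, ind (X e = z) ≤ 1 / Q := by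
  have hQ' : (0 : ℝ) < Q := by
    have := NeZero.pos Q
    exact_mod_cast this
  rw [← resample' e (fun X : Cfg m Q => ind (X e = z))]
  simp only [Function.update_self, Finset.expect_const Finset.univ_nonempty]
  rw [Fintype.expect_eq_sum_div_card, ZMod.card]
  refine div_le_div_of_nonneg_right ?_ hQ'.le
  rw [Finset.sum_eq_single z]
  · exact ind_le_one _
  · intro b _ hb
    exact ind_false hb
  · intro h; exact absurd (Finset.mem_univ z) h

/-- The probability of a zero sum is small. -/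
theorem prob_zero : bas (fun (X Y Z : Cfg m Q) => ind (Zero X Y Z)) ≤ (m : ℝ) ^ 3 / Q := by
  set I : Fin m → Fin m → Fin m → Cfg m Q → Cfg m Q → Cfg m Q → ℝ := fun i j k X Y Z =>
    ind (X (i, j) + Y (j, k) + Z (k, i) = 0) with hI
  have hle : ∀ X Y Z, ind (Zero X Y Z) ≤ ∑ i, ∑ j, ∑ k, I i j k X Y Z := by
    intro X Y Z
    have hn : ∀ i j k, 0 ≤ I i j k X Y Z := fun _ _ _ => ind_nonneg _
    by_cases h : Zero X Y Z
    · obtain ⟨i, j, k, h'⟩ := h
      calc ind (Zero X Y Z) ≤ 1 := ind_le_one _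
        _ = I i j k X Y Z := (ind_true h').symm
        _ ≤ ∑ k', I i j k' X Y Z :=
            Finset.single_le_sum (f := fun k' => I i j k' X Y Z) (fun _ _ => hn _ _ _)
              (Finset.mem_univ k)
        _ ≤ ∑ j', ∑ k', I i j' k' X Y Z :=
            Finset.single_le_sum (f := fun j' => ∑ k', I i j' k' X Y Z)
              (fun _ _ => Finset.sum_nonneg fun _ _ => hn _ _ _) (Finset.mem_univ j)
        _ ≤ _ := Finset.single_le_sum (f := fun i' => ∑ j', ∑ k', I i' j' k' X Y Z)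
              (fun _ _ => Finset.sum_nonneg fun _ _ => Finset.sum_nonneg fun _ _ => hn _ _ _)
              (Finset.mem_univ i)
    · rw [ind_false h]
      exact Finset.sum_nonneg fun _ _ => Finset.sum_nonneg fun _ _ =>
        Finset.sum_nonneg fun _ _ => hn _ _ _
  have hone : ∀ i j k, bas (I i j k) ≤ 1 / Q := by
    intro i j k
    refine Finset.expect_le Finset.univ_nonempty fun X _ => ?_
    refine Finset.expect_le Finset.univ_nonempty fun Y _ => ?_
    refine le_trans (le_of_eq ?_) (point (k, i) (-(X (i, j) + Y (j, k))))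
    refine Finset.expect_congr rfl fun Z _ => ?_
    simp only [hI]
    congr 1
    apply propext
    rw [add_comm, add_eq_zero_iff_eq_neg]
  calc bas (fun (X Y Z : Cfg m Q) => ind (Zero X Y Z))
      ≤ bas (fun X Y Z => ∑ i, ∑ j, ∑ k, I i j k X Y Z) := bas_mono _ _ hle
    _ = ∑ i, ∑ j, ∑ k, bas (I i j k) := by simp only [bas_sum]
    _ ≤ ∑ _i : Fin m, ∑ _j : Fin m, ∑ _k : Fin m, (1 / Q : ℝ) :=
        Finset.sum_le_sum fun _ _ => Finset.sum_le_sum fun _ _ => Finset.sum_le_sum fun _ _ =>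
          hone _ _ _
    _ = (m : ℝ) ^ 3 / Q := by
        simp only [Finset.sum_const, Finset.card_univ, Fintype.card_fin, nsmul_eq_mul]
        ring

/-- The abstract lower bound: `S` separates the yes-instances from the no-instances. -/
theorem gap (hQ : 2 ≤ Q) (S : Cfg m Q → Cfg m Q → Cfg m Q → ℝ) (θ A : ℝ)
    (hyes : ∀ X Y Z, Zero X Y Z → θ + 1 ≤ S X Y Z)
    (hno : ∀ X Y Z, ¬ Zero X Y Z → S X Y Z ≤ θ) (hA : ∀ X Y Z, |S X Y Z| ≤ A) (i j k : Fin m) :
    1 - 2 * A * ((m : ℝ) ^ 3 / Q) ≤ dT S i j k := by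
  have hA0 : 0 ≤ A := (abs_nonneg _).trans (hA 0 0 0)
  have : Fact (1 < Q) := ⟨by omega⟩
  -- a no-instance
  have hθ : -A ≤ θ := by
    have hn : ¬ Zero (m := m) (Q := Q) 0 0 (fun _ => 1) := by
      rintro ⟨_, _, _, h⟩
      simp at h
    have h1 := hno _ _ _ hn
    have h2 := (abs_le.1 (hA 0 0 (fun _ => 1))).1
    linarith
  have h0 : θ + 1 ≤ pla S i j k := by
    refine Finset.le_expect Finset.univ_nonempty fun a _ => ?_
    refine Finset.le_expect Finset.univ_nonempty fun b _ => ?_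
    unfold gT
    refine Finset.le_expect Finset.univ_nonempty fun X _ => ?_
    refine Finset.le_expect Finset.univ_nonempty fun Y _ => ?_
    refine Finset.le_expect Finset.univ_nonempty fun Z _ => ?_
    refine hyes _ _ _ ⟨i, j, k, ?_⟩
    simp only [Function.update_self]
    ring
  have hpt : ∀ X Y Z, S X Y Z ≤ θ + 2 * A * ind (Zero X Y Z) := by
    intro X Y Z
    by_cases h : Zero X Y Z
    · rw [ind_true h]
      have := (abs_le.1 (hA X Y Z)).2
      linarith
    · rw [ind_false h]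
      have := hno X Y Z h
      linarith
  have h1 : bas S ≤ θ + 2 * A * ((m : ℝ) ^ 3 / Q) := by
    refine (bas_mono _ _ hpt).trans ?_
    rw [bas_add (fun _ _ _ => θ) (fun X Y Z => 2 * A * ind (Zero X Y Z)), bas_const,
      bas_smul (2 * A) (fun X Y Z => ind (Zero X Y Z))]
    have := mul_le_mul_of_nonneg_left (prob_zero (m := m) (Q := Q))
      (by positivity : 0 ≤ 2 * A)
    linarith
  unfold dT
  linarith

theorem simul_voter (hQn : 3 * Q ≤ n ^ 300) (B : ℕ) (H : Inst n → ℝ)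
    (h01 : ∀ I : Inst n, I.Valid → 0 ≤ H I ∧ H I ≤ 1) (hS : IsSimul B H) :
    ∑ i, ∑ j, ∑ k, |dT (fun (X Y Z : Cfg m Q) => H (mkInst n X Y Z)) i j k| ≤
      5 * √((B : ℝ) ^ 3) := by
  classical
  obtain ⟨M, u, hu⟩ := hS
  set M1 : Cfg m Q → Fin (2 ^ B) := fun X => M (fl n) 0 (blk 0 (Wt X 0 0)) with hM1
  set M2 : Cfg m Q → Fin (2 ^ B) := fun Y => M (fl n) 1 (blk 1 (Wt 0 Y 0)) with hM2
  set M3 : Cfg m Q → Fin (2 ^ B) := fun Z => M (fl n) 2 (blk 2 (Wt 0 0 Z)) with hM3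
  set F : Fin (2 ^ B) → Fin (2 ^ B) → Fin (2 ^ B) → ℝ := fun a b c =>
    max 0 (min 1 (u (fl n) ![a, b, c])) with hF
  have hm : ∀ X Y Z, (fun p => M (fl n) p (blk p (Wt X Y Z))) = ![M1 X, M2 Y, M3 Z] := by
    intro X Y Z
    funext p
    fin_cases p
    · show M (fl n) 0 (blk 0 (Wt X Y Z)) = M1 X
      rw [blk_indep 0 X Y Z X 0 0 (fun _ => rfl) (by simp) (by simp)]
    · show M (fl n) 1 (blk 1 (Wt X Y Z)) = M2 Y
      rw [blk_indep 1 X Y Z 0 Y 0 (by simp) (fun _ => rfl) (by simp)]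
    · show M (fl n) 2 (blk 2 (Wt X Y Z)) = M3 Z
      rw [blk_indep 2 X Y Z 0 0 Z (by simp) (by simp) (fun _ => rfl)]
  have he : (fun (X Y Z : Cfg m Q) => H (mkInst n X Y Z)) =
      fun X Y Z => F (M1 X) (M2 Y) (M3 Z) := by
    funext X Y Z
    have hv : (mkInst n X Y Z : Inst n).Valid := mkInst_valid hQn X Y Z
    have h1 := h01 _ hv
    have h2 := hu _ hv
    simp only [mkInst] at h1 h2 ⊢
    rw [hm X Y Z] at h2
    rw [h2] at h1 ⊢
    simp only [hF]
    rw [min_eq_right h1.2, max_eq_right h1.1]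
  rw [he]
  exact smp_total M1 M2 M3 F (fun a b c => by
    rw [abs_of_nonneg (le_max_left _ _)]
    exact max_le zero_le_one (min_le_left _ _)) B (by simp) (by simp) (by simp)

theorem probe_voter (hQn : 3 * Q ≤ n ^ 300) (B : ℕ) (H : Inst n → ℝ)
    (h01 : ∀ I : Inst n, I.Valid → 0 ≤ H I ∧ H I ≤ 1) (hT : IsProbe B H) :
    ∑ i, ∑ j, ∑ k, |dT (fun (X Y Z : Cfg m Q) => H (mkInst n X Y Z)) i j k| ≤
      3 * √((B : ℝ) ^ 3) := by
  obtain ⟨t, ht⟩ := hT
  have he : (fun (X Y Z : Cfg m Q) => H (mkInst n X Y Z)) =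
      fun X Y Z => (t (fl n)).eval ((place n m Q).W X Y Z) := by
    funext X Y Z
    exact ht _ (mkInst_valid hQn X Y Z)
  rw [he]
  refine tree_total (place n m Q) (t (fl n)) ?_
  intro X Y Z
  have := congrFun (congrFun (congrFun he X) Y) Z
  rw [← this]
  exact h01 _ (mkInst_valid hQn X Y Z)

/-- A box cut by a condition on the block of one player. -/
def Box.cut (b : Box m Q) (p : Fin 3) (R : Cfg m Q → Prop) : Box m Q where
  R1 := fun X => b.R1 X ∧ (p = 0 → R X)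
  R2 := fun Y => b.R2 Y ∧ (p = 1 → R Y)
  R3 := fun Z => b.R3 Z ∧ (p = 2 → R Z)

theorem ind_and (p q : Prop) : ind (p ∧ q) = ind p * ind q := by
  by_cases hp : p <;> by_cases hq : q
  · rw [ind_true hp, ind_true hq, ind_true ⟨hp, hq⟩, mul_one]
  · rw [ind_false hq, ind_false (fun h => hq h.2), mul_zero]
  · rw [ind_false hp, ind_false (fun h => hp h.1), zero_mul]
  · rw [ind_false hp, ind_false (fun h => hp h.1), zero_mul]

/-- The block of a player in the configuration. -/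
def pick (p : Fin 3) (X Y Z : Cfg m Q) : Cfg m Q := if p = 0 then X else if p = 1 then Y else Z

theorem Box.cut_ib (b : Box m Q) (p : Fin 3) (R : Cfg m Q → Prop) (X Y Z : Cfg m Q) :
    (b.cut p R).ib X Y Z = b.ib X Y Z * ind (R (pick p X Y Z)) := by
  unfold Box.cut Box.ib
  simp only [ind_and]
  fin_cases p
  · simp [pick, ind_true]; ring
  · simp [pick, ind_true]; ring
  · simp [pick, ind_true]; ring

/-- The boxes of a protocol. -/
theorem proto_boxes {d : ℕ} (P : Proto n d) :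
    ∃ (Λ : Type) (_ : Fintype Λ) (b : Λ → Box m Q) (v : Λ → ℝ), Fintype.card Λ ≤ 2 ^ d ∧
      (∀ X Y Z, ∑ l, (b l).ib X Y Z = 1) ∧
      ∀ X Y Z, P.eval (Wt X Y Z) = ∑ l, v l * (b l).ib X Y Z := by
  classical
  induction P with
  | @leaf d v =>
    refine ⟨Unit, inferInstance, fun _ => ⟨fun _ => True, fun _ => True, fun _ => True⟩,
      fun _ => v, ?_, ?_, ?_⟩
    · simpa using Nat.one_le_two_pow
    · intro X Y Z
      simp [Box.ib, ind_true]
    · intro X Y Z
      simp [Box.ib, ind_true, Proto.eval]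
  | @node d p bit next ih =>
    obtain ⟨Λ0, i0, b0, v0, c0, s0, e0⟩ := ih false
    obtain ⟨Λ1, i1, b1, v1, c1, s1, e1⟩ := ih true
    set β : Cfg m Q → Bool := fun W => bit (blk p (Wt W W W)) with hβ
    have hbit : ∀ X Y Z, bit (blk p (Wt X Y Z)) = β (pick p X Y Z) := by
      intro X Y Z
      simp only [hβ]
      rw [blk_indep p X Y Z (pick p X Y Z) (pick p X Y Z) (pick p X Y Z)]
      · intro h; subst h; simp [pick]
      · intro h; subst h; simp [pick]
      · intro h; subst h; simp [pick]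
    refine ⟨Λ0 ⊕ Λ1, inferInstance,
      Sum.elim (fun l => (b0 l).cut p (fun W => β W = false))
        (fun l => (b1 l).cut p (fun W => β W = true)),
      Sum.elim v0 v1, ?_, ?_, ?_⟩
    · rw [Fintype.card_sum, pow_succ]
      omega
    · intro X Y Z
      rw [Fintype.sum_sum_type]
      simp only [Sum.elim_inl, Sum.elim_inr, Box.cut_ib, ← Finset.sum_mul, s0, s1, one_mul]
      rcases h : β (pick p X Y Z)
      · rw [ind_true rfl, ind_false (by simp)]; ring
      · rw [ind_true rfl, ind_false (by simp)]; ring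
    · intro X Y Z
      rw [Fintype.sum_sum_type]
      simp only [Sum.elim_inl, Sum.elim_inr, Box.cut_ib, ← mul_assoc, ← Finset.sum_mul, Proto.eval]
      rw [hbit]
      rcases h : β (pick p X Y Z)
      · rw [ind_true rfl, ind_false (by simp), e0]; ring
      · rw [ind_true rfl, ind_false (by simp), e1]; ring

theorem proto_voter (hQn : 3 * Q ≤ n ^ 300) (B : ℕ) (hB : 1 ≤ B) (H : Inst n → ℝ)
    (h01 : ∀ I : Inst n, I.Valid → 0 ≤ H I ∧ H I ≤ 1) (hT : IsProto B H) :
    ∑ i, ∑ j, ∑ k, |dT (fun (X Y Z : Cfg m Q) => H (mkInst n X Y Z)) i j k| ≤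
      300 * (B * min (B : ℝ) m) := by
  classical
  obtain ⟨P, hP⟩ := hT
  obtain ⟨Λ, iΛ, b, v, hc, hs, he⟩ := proto_boxes (m := m) (Q := Q) (P (fl n))
  have heq : ∀ X Y Z : Cfg m Q, H (mkInst n X Y Z) = ∑ l, v l * (b l).ib X Y Z := by
    intro X Y Z
    rw [← he X Y Z]
    exact hP _ (mkInst_valid hQn X Y Z)
  have ib01 : ∀ (c : Box m Q) X Y Z, c.ib X Y Z = 0 ∨ c.ib X Y Z = 1 := by
    intro c X Y Z
    unfold Box.ib
    by_cases h1 : c.R1 X <;> by_cases h2 : c.R2 Y <;> by_cases h3 : c.R3 Z <;>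
      simp [ind, h1, h2, h3]
  set v' : Λ → ℝ := fun l => max 0 (min 1 (v l)) with hv'
  have hfun : (fun (X Y Z : Cfg m Q) => H (mkInst n X Y Z)) =
      fun X Y Z => ∑ l, v' l * (b l).ib X Y Z := by
    funext X Y Z
    rw [heq]
    refine Finset.sum_congr rfl fun l _ => ?_
    rcases ib01 (b l) X Y Z with h | h
    · rw [h, mul_zero, mul_zero]
    · -- all the other boxes do not contain the point
      have hother : ∀ l', l' ≠ l → (b l').ib X Y Z = 0 := by
        intro l' hl'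
        rcases ib01 (b l') X Y Z with h' | h'
        · exact h'
        · exfalso
          have h2 : ∑ x ∈ ({l, l'} : Finset Λ), (b x).ib X Y Z ≤ ∑ x, (b x).ib X Y Z :=
            Finset.sum_le_sum_of_subset_of_nonneg (Finset.subset_univ _) fun x _ _ => by
              rcases ib01 (b x) X Y Z with h'' | h''
              · rw [h'']
              · rw [h'']; norm_num
          rw [Finset.sum_pair (Ne.symm hl'), hs, h, h'] at h2
          norm_num at h2
      have hval : H (mkInst n X Y Z) = v l := by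
        rw [heq, Finset.sum_eq_single l]
        · rw [h, mul_one]
        · intro l' _ hl'
          rw [hother l' hl', mul_zero]
        · intro hn; exact absurd (Finset.mem_univ l) hn
      have hb := h01 _ (mkInst_valid hQn X Y Z)
      rw [hval] at hb
      simp only [hv']
      rw [min_eq_right hb.2, max_eq_right hb.1]
  rw [hfun]
  exact box_total b hs v' (fun l => ⟨le_max_left _ _, max_le zero_le_one (min_le_left _ _)⟩) B hB
    hc

end

theorem rpow_eq_sqrt (B : ℕ) : (B : ℝ) ^ (3 / 2 : ℝ) = √((B : ℝ) ^ 3) := by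
  rw [Real.sqrt_eq_rpow, ← Real.rpow_natCast, ← Real.rpow_mul (Nat.cast_nonneg B)]
  norm_num

theorem Price.one_le {n : ℕ} (hn : 1 ≤ n) {H : Inst n → ℝ} {κ : ℝ} (h : Price H κ) : 1 ≤ κ := by
  obtain ⟨_, B, hB, h⟩ := h
  have hB' : (1 : ℝ) ≤ B := by exact_mod_cast hB
  have hn' : (1 : ℝ) ≤ n := by exact_mod_cast hn
  rcases h with ⟨_, rfl⟩ | ⟨_, rfl⟩
  · exact Real.one_le_rpow hB' (by norm_num)
  · have : (1 : ℝ) ≤ min (B : ℝ) n := le_min hB' hn'
    nlinarith

/-- Influence of a voter. -/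
theorem voter_total {n m Q : ℕ} [NeZero Q] (hmn : m ≤ n) (hQn : 3 * Q ≤ n ^ 300) {H : Inst n → ℝ}
    {κ : ℝ} (h : Price H κ) :
    ∑ i, ∑ j, ∑ k, |dT (fun (X Y Z : Cfg m Q) => H (mkInst n X Y Z)) i j k| ≤ 300 * κ := by
  obtain ⟨h01, B, hB, h⟩ := h
  have hs : 0 ≤ √((B : ℝ) ^ 3) := Real.sqrt_nonneg _
  rcases h with ⟨h, rfl⟩ | ⟨h, rfl⟩
  · rw [rpow_eq_sqrt]
    rcases h with h | h
    · have := simul_voter (m := m) (Q := Q) hQn B H h01 h
      linarith
    · have := probe_voter (m := m) (Q := Q) hQn B H h01 h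
      linarith
  · have h1 := proto_voter (m := m) (Q := Q) hQn B hB H h01 h
    have h2 : (B : ℝ) * min (B : ℝ) m ≤ B * min (B : ℝ) n := by
      refine mul_le_mul_of_nonneg_left (min_le_min_left _ ?_) (Nat.cast_nonneg _)
      exact_mod_cast hmn
    linarith

/-- The total weight of a vote is at least `1`. -/
theorem one_le_weight {n : ℕ} (hn : 3 ≤ n) {ι : Type} [Fintype ι] (H : ι → Inst n → ℝ)
    (h01 : ∀ s, ∀ I : Inst n, I.Valid → 0 ≤ H s I ∧ H s I ≤ 1) (a : ι → ℝ) (θ : ℝ)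
    (hyes : ∀ I : Inst n, I.Valid → Tripartite I → I.Yes → θ + 1 ≤ ∑ s, a s * H s I)
    (hno : ∀ I : Inst n, I.Valid → Tripartite I → ¬ I.Yes → ∑ s, a s * H s I ≤ θ) :
    1 ≤ ∑ s, |a s| := by
  have hval : ∀ z : ℤ, |z| ≤ 1 → (⟨fl n, fun _ _ => z⟩ : Inst n).Valid := by
    intro z hz
    refine ⟨?_, ?_, fun _ _ => rfl, fun _ _ => ?_⟩
    · intro u v
      simp only [fl, ne_eq, eq_comm]
    · intro u
      simp [fl]
    · have : (1 : ℤ) ≤ (n : ℤ) ^ 300 := one_le_pow₀ (by omega)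
      exact hz.trans this
  have htri : ∀ z : ℤ, Tripartite (⟨fl n, fun _ _ => z⟩ : Inst n) := by
    intro z u v
    simp [fl]
  have hY : (⟨fl n, fun _ _ => (0 : ℤ)⟩ : Inst n).Yes := by
    refine ⟨⟨0, by omega⟩, ⟨1, by omega⟩, ⟨2, by omega⟩, ?_, ?_, ?_, ?_, ?_, ?_, ?_⟩ <;>
      simp [fl]
  have hN : ¬ (⟨fl n, fun _ _ => (1 : ℤ)⟩ : Inst n).Yes := by
    rintro ⟨_, _, _, _, _, _, _, _, _, h⟩
    norm_num at h
  have h1 := hyes _ (hval 0 (by norm_num)) (htri 0) hY
  have h2 := hno _ (hval 1 (by norm_num)) (htri 1) hN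
  have h3 : ∑ s, a s * H s ⟨fl n, fun _ _ => (0 : ℤ)⟩ - ∑ s, a s * H s ⟨fl n, fun _ _ => (1 : ℤ)⟩ ≤
      ∑ s, |a s| := by
    rw [← Finset.sum_sub_distrib]
    refine Finset.sum_le_sum fun s _ => ?_
    have b0 := h01 s _ (hval 0 (by norm_num))
    have b1 := h01 s _ (hval 1 (by norm_num))
    rw [← mul_sub]
    refine (le_abs_self _).trans ?_
    rw [abs_mul]
    refine mul_le_of_le_one_right (abs_nonneg _) ?_
    rw [abs_le]
    constructor <;> linarith
  linarith

/-- The lower bound. -/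
theorem lower {n : ℕ} (hn : 3 ≤ n) {ι : Type} [Fintype ι] (H : ι → Inst n → ℝ) (κ : ι → ℝ)
    (hH : ∀ s, Price (H s) (κ s)) (a : ι → ℝ) (θ : ℝ)
    (hyes : ∀ I : Inst n, I.Valid → Tripartite I → I.Yes → θ + 1 ≤ ∑ s, a s * H s I)
    (hno : ∀ I : Inst n, I.Valid → Tripartite I → ¬ I.Yes → ∑ s, a s * H s I ≤ θ) :
    (n : ℝ) ^ 3 ≤ 2 ^ 22 * ∑ s, |a s| * κ s := by
  have hκ1 : ∀ s, 1 ≤ κ s := fun s => (hH s).one_le (by omega)
  set A := ∑ s, |a s| with hA
  have hA1 : 1 ≤ A := one_le_weight hn H (fun s => (hH s).1) a θ hyes hno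
  have hAle : A ≤ ∑ s, |a s| * κ s := by
    refine Finset.sum_le_sum fun s _ => ?_
    exact le_mul_of_one_le_right (abs_nonneg _) (hκ1 s)
  have hn0 : (0 : ℝ) < n := by positivity
  rcases le_or_gt ((n : ℝ) ^ 3) A with hbig | hsmall
  · linarith
  rcases Nat.lt_or_ge n 9 with hn9 | hn9
  · have : (n : ℝ) ≤ 9 := by exact_mod_cast hn9.le
    have h3 : (n : ℝ) ^ 3 ≤ 9 ^ 3 := pow_le_pow_left₀ hn0.le this 3
    linarith
  set m := n / 9 with hmdef
  have hm : 0 < m := by omega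
  have h9 : 9 * m ≤ n := by omega
  have hnm : n ≤ 17 * m := by omega
  set Q := 4 * n ^ 6 with hQdef
  have hQ : 0 < Q := by positivity
  have : NeZero Q := ⟨hQ.ne'⟩
  have hQ2 : 2 ≤ Q := by
    have : 1 ≤ n ^ 6 := Nat.one_le_pow _ _ (by omega)
    omega
  have hQn : 3 * Q ≤ n ^ 300 := by
    have e : n ^ 300 = n ^ 294 * n ^ 6 := by rw [← pow_add]
    have h8 : 12 ≤ n ^ 294 := by
      calc 12 ≤ 3 ^ 3 := by norm_num
        _ ≤ 3 ^ 294 := Nat.pow_le_pow_right (by norm_num) (by norm_num)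
        _ ≤ n ^ 294 := Nat.pow_le_pow_left hn 294
    rw [hQdef, e]
    calc 3 * (4 * n ^ 6) = 12 * n ^ 6 := by ring
      _ ≤ _ := Nat.mul_le_mul_right _ h8
  have hQ' : (0 : ℝ) < Q := by exact_mod_cast hQ
  have hmn : (m : ℝ) ≤ n := by exact_mod_cast (by omega : m ≤ n)
  have hm3 : (m : ℝ) ^ 3 / Q ≤ 1 / (4 * (n : ℝ) ^ 3) := by
    rw [div_le_div_iff₀ hQ' (by positivity)]
    have hp : (m : ℝ) ^ 3 ≤ (n : ℝ) ^ 3 := pow_le_pow_left₀ (Nat.cast_nonneg m) hmn 3
    have : (Q : ℝ) = 4 * (n : ℝ) ^ 6 := by rw [hQdef]; push_cast; ring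
    rw [this]
    calc (m : ℝ) ^ 3 * (4 * (n : ℝ) ^ 3) ≤ (n : ℝ) ^ 3 * (4 * (n : ℝ) ^ 3) :=
          mul_le_mul_of_nonneg_right hp (by positivity)
      _ = 1 * (4 * (n : ℝ) ^ 6) := by ring
  set G : ι → Cfg m Q → Cfg m Q → Cfg m Q → ℝ := fun s X Y Z => H s (mkInst n X Y Z) with hG
  have hGb : ∀ s X Y Z, 0 ≤ G s X Y Z ∧ G s X Y Z ≤ 1 := fun s X Y Z =>
    (hH s).1 _ (mkInst_valid hQn X Y Z)
  have hSA : ∀ X Y Z, |∑ s, a s * G s X Y Z| ≤ A := by
    intro X Y Z
    refine (Finset.abs_sum_le_sum_abs _ _).trans (Finset.sum_le_sum fun s _ => ?_)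
    rw [abs_mul, abs_of_nonneg (hGb s X Y Z).1]
    exact mul_le_of_le_one_right (abs_nonneg _) (hGb s X Y Z).2
  have hgap : ∀ i j k : Fin m, 1 / 2 ≤ ∑ s, |a s| * |dT (G s) i j k| := by
    intro i j k
    have h1 := gap hQ2 (fun X Y Z => ∑ s, a s * G s X Y Z) θ A
      (fun X Y Z hz => hyes _ (mkInst_valid hQn X Y Z) (mkInst_tripartite X Y Z)
        (yes_of_zero h9 X Y Z hz))
      (fun X Y Z hz => hno _ (mkInst_valid hQn X Y Z) (mkInst_tripartite X Y Z)
        (fun hy => hz (zero_of_yes X Y Z hy))) hSA i j k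
    rw [dT_sum] at h1
    have h2 : 2 * A * ((m : ℝ) ^ 3 / Q) ≤ 1 / 2 := by
      calc 2 * A * ((m : ℝ) ^ 3 / Q) ≤ 2 * A * (1 / (4 * (n : ℝ) ^ 3)) :=
            mul_le_mul_of_nonneg_left hm3 (by linarith)
        _ ≤ 2 * (n : ℝ) ^ 3 * (1 / (4 * (n : ℝ) ^ 3)) :=
            mul_le_mul_of_nonneg_right (by linarith) (by positivity)
        _ = 1 / 2 := by field_simp; norm_num
    have h4 : ∑ s, a s * dT (G s) i j k ≤ ∑ s, |a s| * |dT (G s) i j k| := by
      refine Finset.sum_le_sum fun s _ => ?_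
      rw [← abs_mul]; exact le_abs_self _
    linarith
  have htot : (m : ℝ) ^ 3 / 2 ≤ ∑ s, |a s| * (300 * κ s) := by
    calc (m : ℝ) ^ 3 / 2 = ∑ _i : Fin m, ∑ _j : Fin m, ∑ _k : Fin m, (1 / 2 : ℝ) := by
          simp only [Finset.sum_const, Finset.card_univ, Fintype.card_fin, nsmul_eq_mul]
          ring
      _ ≤ ∑ i : Fin m, ∑ j : Fin m, ∑ k : Fin m, ∑ s, |a s| * |dT (G s) i j k| :=
          Finset.sum_le_sum fun i _ => Finset.sum_le_sum fun j _ => Finset.sum_le_sum fun k _ =>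
            hgap i j k
      _ = ∑ s, |a s| * ∑ i, ∑ j, ∑ k, |dT (G s) i j k| := by
          have c1 : ∀ i j : Fin m, ∑ k : Fin m, ∑ s, |a s| * |dT (G s) i j k| =
              ∑ s, |a s| * ∑ k : Fin m, |dT (G s) i j k| := fun i j => by
            rw [Finset.sum_comm]
            exact Finset.sum_congr rfl fun s _ => by rw [Finset.mul_sum]
          have c2 : ∀ i : Fin m, ∑ j : Fin m, ∑ s, |a s| * ∑ k : Fin m, |dT (G s) i j k| =
              ∑ s, |a s| * ∑ j : Fin m, ∑ k : Fin m, |dT (G s) i j k| := fun i => by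
            rw [Finset.sum_comm]
            exact Finset.sum_congr rfl fun s _ => by rw [Finset.mul_sum]
          simp only [c1, c2]
          rw [Finset.sum_comm]
          exact Finset.sum_congr rfl fun s _ => by rw [Finset.mul_sum]
      _ ≤ ∑ s, |a s| * (300 * κ s) := by
          refine Finset.sum_le_sum fun s _ => mul_le_mul_of_nonneg_left ?_ (abs_nonneg _)
          exact voter_total (by omega) hQn (hH s)
  have hfin : (n : ℝ) ^ 3 ≤ 4913 * (m : ℝ) ^ 3 := by
    have : (n : ℝ) ≤ 17 * m := by exact_mod_cast hnm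
    calc (n : ℝ) ^ 3 ≤ (17 * m) ^ 3 := pow_le_pow_left₀ hn0.le this 3
      _ = _ := by ring
  have hlast : ∑ s, |a s| * (300 * κ s) = 300 * ∑ s, |a s| * κ s := by
    rw [Finset.mul_sum]
    refine Finset.sum_congr rfl fun s _ => ?_
    ring
  rw [hlast] at htot
  linarith

end Pool.Agent.Helper8.VT
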