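import Pool.Agent.Helper8.VT.KindsL

/-!
Functions of few weights are voters of both kinds; the vote of all blocks.
-/

set_option autoImplicit false
set_option linter.unusedSectionVars false

open Finset
open scoped BigOperators

namespace Pool.Agent.Helper8.VT

open Pool.Agent.Helper22.ETModel

section
variable {n : ℕ}

/-- `F` depends only on the weights in the cells of the list `L`. -/
def DependsOn (L : List (Fin n × Fin n)) (F : (Fin n → Fin n → ℤ) → ℝ) : Prop :=
  ∀ w w' : Fin n → Fin n → ℤ, (∀ p ∈ L, w p.1 p.2 = w' p.1 p.2) → F w = F w'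

theorem exists_tree (L : List (Fin n × Fin n)) (F : (Fin n → Fin n → ℤ) → ℝ)
    (hF : DependsOn L F) : ∃ t : Tree n L.length, ∀ w, t.eval w = F w := by
  induction L generalizing F with
  | nil => exact ⟨.leaf (F 0), fun w => hF _ _ (by simp)⟩
  | cons p L ih =>
    obtain ⟨i, j⟩ := p
    have h : ∀ z : ℤ, ∃ t : Tree n L.length, ∀ w, t.eval w =
        F (fun a b => if (a, b) = (i, j) then z else w a b) := by
      intro z
      refine ih _ ?_
      intro w w' hw
      apply hF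
      intro p hp
      by_cases hpe : p = (i, j)
      · simp [hpe]
      · have hpL : p ∈ L := by
          rcases List.mem_cons.1 hp with h | h
          · exact absurd h hpe
          · exact h
        simp only [Prod.mk.eta, hpe, if_false]
        exact hw p hpL
    choose t ht using h
    refine ⟨.node i j t, fun w => ?_⟩
    simp only [Tree.eval]
    rw [ht]
    congr 1
    funext a b
    by_cases hab : (a, b) = (i, j)
    · simp only [hab, if_true]
      simp only [Prod.mk.injEq] at hab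
      rw [hab.1, hab.2]
    · simp only [hab, if_false]

theorem weaken {d : ℕ} (t : Tree n d) (d' : ℕ) (h : d ≤ d') :
    ∃ t' : Tree n d', ∀ w, t'.eval w = t.eval w := by
  induction t generalizing d' with
  | leaf v => exact ⟨.leaf v, fun w => rfl⟩
  | @node d i j next ih =>
    obtain ⟨d'', rfl⟩ : ∃ d'', d' = d'' + 1 := ⟨d' - 1, by omega⟩
    have h' : ∀ z : ℤ, ∃ t' : Tree n d'', ∀ w, t'.eval w = (next z).eval w := fun z =>
      ih z d'' (by omega)
    choose t' ht' using h'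
    exact ⟨.node i j t', fun w => ht' _ w⟩

theorem isProbe_of_dependsOn (L : List (Fin n × Fin n)) (B : ℕ) (hB : L.length ≤ B)
    (F : Flags n → (Fin n → Fin n → ℤ) → ℝ) (hF : ∀ f, DependsOn L (F f)) :
    IsProbe B (fun I : Inst n => F I.flag I.wt) := by
  have h : ∀ f, ∃ t : Tree n B, ∀ w, t.eval w = F f w := by
    intro f
    obtain ⟨t, ht⟩ := exists_tree L (F f) (hF f)
    obtain ⟨t', ht'⟩ := weaken t B hB
    exact ⟨t', fun w => (ht' w).trans (ht w)⟩
  choose t ht using h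
  exact ⟨t, fun I _ => (ht I.flag I.wt).symm⟩

theorem isSketch_of_dependsOn (L : List (Fin n × Fin n)) (B b : ℕ)
    (hb : 2 * n ^ 300 + 1 ≤ 2 ^ b) (hB : L.length * b ≤ B)
    (F : Flags n → (Fin n → Fin n → ℤ) → ℝ) (hF : ∀ f, DependsOn L (F f)) :
    IsSketch B (fun I : Inst n => F I.flag I.wt) := by
  classical
  have : NeZero (2 * n ^ 300 + 1) := ⟨by omega⟩
  refine ⟨Fin L.length → ZMod (2 * n ^ 300 + 1), inferInstance, inferInstance, ?_,
    fun _ i j z r => if L.get r = (i, j) then (z : ZMod (2 * n ^ 300 + 1)) else 0,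
    fun f c => F f (fun i j => if h : ∃ r, L.get r = (i, j) then (c h.choose).valMinAbs else 0),
    ?_⟩
  · rw [Fintype.card_fun, ZMod.card, Fintype.card_fin]
    calc (2 * n ^ 300 + 1) ^ L.length ≤ (2 ^ b) ^ L.length := Nat.pow_le_pow_left hb _
      _ = 2 ^ (L.length * b) := by rw [← pow_mul, mul_comm]
      _ ≤ 2 ^ B := Nat.pow_le_pow_right (by norm_num) hB
  · intro I hI
    apply hF
    intro p hp
    obtain ⟨r, hr⟩ := List.get_of_mem hp
    have hex : ∃ r, L.get r = (p.1, p.2) := ⟨r, hr⟩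
    rw [dif_pos hex]
    have hc := hex.choose_spec
    set r0 := hex.choose with hr0
    have hsum : (∑ i, ∑ j, (fun (r : Fin L.length) =>
        if L.get r = (i, j) then ((I.wt i j : ℤ) : ZMod (2 * n ^ 300 + 1)) else 0)) r0 =
        ((I.wt p.1 p.2 : ℤ) : ZMod (2 * n ^ 300 + 1)) := by
      simp only [Finset.sum_apply]
      rw [Finset.sum_eq_single p.1, Finset.sum_eq_single p.2]
      · rw [if_pos hc]
      · intro j _ hj
        rw [if_neg]
        rw [hc]
        intro h
        exact hj (by simpa using (Prod.mk.inj h).2.symm)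
      · intro h; exact absurd (Finset.mem_univ _) h
      · intro i _ hi
        refine Finset.sum_eq_zero fun j _ => ?_
        rw [if_neg]
        rw [hc]
        intro h
        exact hi (by simpa using (Prod.mk.inj h).1.symm)
      · intro h; exact absurd (Finset.mem_univ _) h
    rw [hsum, decode]
    have := hI.2.2.2 p.1 p.2
    push_cast
    exact this

/-- The zero triangle of `I` in the blocks `a`, `b`, `c` of size `k`. -/
def BlockYes (k : ℕ) (a b c : ℕ) (f : Flags n) (w : Fin n → Fin n → ℤ) : Prop :=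
  ∃ i j l : Fin n, (i : ℕ) / k = a ∧ (j : ℕ) / k = b ∧ (l : ℕ) / k = c ∧
    i ≠ j ∧ j ≠ l ∧ i ≠ l ∧ f i j = true ∧ f j l = true ∧ f i l = true ∧
    w i j + w j l + w i l = 0

open Classical in
/-- The vote of the block triple. -/
noncomputable def blockVote (k : ℕ) (a b c : ℕ) (f : Flags n) (w : Fin n → Fin n → ℤ) : ℝ :=
  if BlockYes k a b c f w then 1 else 0

/-- The cells between two blocks. -/
def cells (n k a b : ℕ) : Finset (Fin n × Fin n) :=
  Finset.univ.filter fun p => (p.1 : ℕ) / k = a ∧ (p.2 : ℕ) / k = b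

theorem card_block (k a : ℕ) (hk : 0 < k) :
    (Finset.univ.filter fun i : Fin n => (i : ℕ) / k = a).card ≤ k := by
  have h : ((Finset.univ.filter fun i : Fin n => (i : ℕ) / k = a).image
      (fun i : Fin n => (i : ℕ))) ⊆ Finset.Ico (a * k) ((a + 1) * k) := by
    intro x hx
    simp only [Finset.mem_image, Finset.mem_filter, Finset.mem_univ, true_and] at hx
    obtain ⟨i, hi, rfl⟩ := hx
    rw [Finset.mem_Ico]
    rw [Nat.div_eq_iff hk] at hi
    constructor
    · omega
    · have := hi.2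
      rw [Nat.add_mul, one_mul]
      omega
  have h2 := Finset.card_le_card h
  rw [Finset.card_image_of_injective _ Fin.val_injective, Nat.card_Ico] at h2
  have : (a + 1) * k - a * k = k := by rw [Nat.add_mul, one_mul]; omega
  omega

theorem card_cells (k a b : ℕ) (hk : 0 < k) : (cells n k a b).card ≤ k * k := by
  have : cells n k a b = (Finset.univ.filter fun i : Fin n => (i : ℕ) / k = a) ×ˢ
      (Finset.univ.filter fun i : Fin n => (i : ℕ) / k = b) := by
    ext p
    simp [cells]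
  rw [this, Finset.card_product]
  exact Nat.mul_le_mul (card_block k a hk) (card_block k b hk)

theorem blockVote_depends (k a b c : ℕ) (f : Flags n) :
    DependsOn ((cells n k a b).toList ++ ((cells n k b c).toList ++ (cells n k a c).toList))
      (blockVote k a b c f) := by
  intro w w' h
  have hcell : ∀ i j : Fin n, ((i : ℕ) / k = a ∧ (j : ℕ) / k = b) ∨
      ((i : ℕ) / k = b ∧ (j : ℕ) / k = c) ∨ ((i : ℕ) / k = a ∧ (j : ℕ) / k = c) →
      w i j = w' i j := by
    intro i j hij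
    refine h (i, j) ?_
    simp only [List.mem_append, Finset.mem_toList, cells, Finset.mem_filter, Finset.mem_univ,
      true_and]
    exact hij
  suffices hiff : BlockYes k a b c f w ↔ BlockYes k a b c f w' by
    unfold blockVote
    by_cases h : BlockYes k a b c f w
    · rw [if_pos h, if_pos (hiff.1 h)]
    · rw [if_neg h, if_neg (fun h' => h (hiff.2 h'))]
  unfold BlockYes
  constructor
  · rintro ⟨i, j, l, hi, hj, hl, r1, r2, r3, r4, r5, r6, hs⟩
    refine ⟨i, j, l, hi, hj, hl, r1, r2, r3, r4, r5, r6, ?_⟩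
    rw [← hcell i j (Or.inl ⟨hi, hj⟩), ← hcell j l (Or.inr (Or.inl ⟨hj, hl⟩)),
      ← hcell i l (Or.inr (Or.inr ⟨hi, hl⟩))]
    exact hs
  · rintro ⟨i, j, l, hi, hj, hl, r1, r2, r3, r4, r5, r6, hs⟩
    refine ⟨i, j, l, hi, hj, hl, r1, r2, r3, r4, r5, r6, ?_⟩
    rw [hcell i j (Or.inl ⟨hi, hj⟩), hcell j l (Or.inr (Or.inl ⟨hj, hl⟩)),
      hcell i l (Or.inr (Or.inr ⟨hi, hl⟩))]
    exact hs

theorem bits (n : ℕ) : 2 * n ^ 300 + 1 ≤ 2 ^ (302 * (Nat.log 2 n + 1)) := by
  have h : n < 2 ^ (Nat.log 2 n + 1) := Nat.lt_pow_succ_log_self (by norm_num) n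
  have h1 : n ^ 300 ≤ (2 ^ (Nat.log 2 n + 1)) ^ 300 := Nat.pow_le_pow_left h.le 300
  have h2 : 1 ≤ (2 ^ (Nat.log 2 n + 1)) ^ 300 := Nat.one_le_pow _ _ (by positivity)
  have h3 : (2 ^ (Nat.log 2 n + 1)) ^ 302 = (2 ^ (Nat.log 2 n + 1)) ^ 2 *
      (2 ^ (Nat.log 2 n + 1)) ^ 300 := by rw [← pow_add]
  have h4 : 4 ≤ (2 ^ (Nat.log 2 n + 1)) ^ 2 := by
    rw [← pow_mul]
    calc 4 = 2 ^ 2 := by norm_num
      _ ≤ _ := Nat.pow_le_pow_right (by norm_num) (by omega)
  calc 2 * n ^ 300 + 1 ≤ 3 * (2 ^ (Nat.log 2 n + 1)) ^ 300 := by omega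
    _ ≤ (2 ^ (Nat.log 2 n + 1)) ^ 2 * (2 ^ (Nat.log 2 n + 1)) ^ 300 :=
        Nat.mul_le_mul_right _ (by omega)
    _ = (2 ^ (Nat.log 2 n + 1)) ^ 302 := h3.symm
    _ = 2 ^ (302 * (Nat.log 2 n + 1)) := by rw [← pow_mul, mul_comm]

/-- The upper bound. -/
theorem upper (n s : ℕ) (hs : 3 ≤ s) (hsn : s ≤ n ^ 2) :
    ∃ (N : ℕ) (H : Fin N → Inst n → ℝ),
      (N : ℝ) * (s : ℝ) ^ (3 / 2 : ℝ) ≤ 2 ^ 9 * (n : ℝ) ^ 3 ∧
      (∀ r, IsProbe s (H r) ∧ IsSketch (302 * (Nat.log 2 n + 1) * s) (H r)) ∧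
      (∀ r I, H r I = 0 ∨ H r I = 1) ∧
      ∀ I : Inst n, I.Yes ↔ ∃ r, H r I = 1 := by
  classical
  set k := Nat.sqrt (s / 3) with hkdef
  have hk : 0 < k := Nat.sqrt_pos.2 (by omega)
  have hk2 : 3 * (k * k) ≤ s := by
    have := Nat.sqrt_le (s / 3)
    rw [← hkdef] at this
    omega
  have hk3 : s ≤ 12 * (k * k) := by
    have h1 := Nat.lt_succ_sqrt (s / 3)
    rw [← hkdef] at h1
    have h2 : (k + 1) * (k + 1) ≤ 4 * (k * k) := by nlinarith
    simp only [Nat.succ_eq_add_one] at h1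
    omega
  have hkn : k ≤ n := by
    by_contra hcon
    push Not at hcon
    have : n ^ 2 < k * k := by nlinarith
    omega
  set q := n / k + 1 with hqdef
  have hqk : q * k ≤ 2 * n := by
    rw [hqdef, Nat.add_mul, one_mul]
    have := Nat.div_mul_le_self n k
    omega
  have hlen : ∀ a b c : ℕ, ((cells n k a b).toList ++ ((cells n k b c).toList ++
      (cells n k a c).toList)).length ≤ s := by
    intro a b c
    simp only [List.length_append, Finset.length_toList]
    have h1 := card_cells (n := n) k a b hk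
    have h2 := card_cells (n := n) k b c hk
    have h3 := card_cells (n := n) k a c hk
    omega
  set e := (Fintype.equivFin (Fin q × Fin q × Fin q)) with he
  refine ⟨Fintype.card (Fin q × Fin q × Fin q), fun r I =>
    blockVote k (e.symm r).1 (e.symm r).2.1 (e.symm r).2.2 I.flag I.wt, ?_, ?_, ?_, ?_⟩
  · have hq : (Fintype.card (Fin q × Fin q × Fin q) : ℝ) = (q : ℝ) ^ 3 := by
      simp only [Fintype.card_prod, Fintype.card_fin]
      push_cast; ring
    rw [hq]
    have h1 : (s : ℝ) ^ (3 / 2 : ℝ) ≤ (64 : ℝ) * (k : ℝ) ^ 3 := by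
      have h2 : (s : ℝ) ≤ 16 * ((k : ℝ) * k) := by
        have : (s : ℝ) ≤ 12 * ((k : ℝ) * k) := by exact_mod_cast hk3
        have : (0 : ℝ) ≤ (k : ℝ) * k := by positivity
        linarith
      calc (s : ℝ) ^ (3 / 2 : ℝ) ≤ (16 * ((k : ℝ) * k)) ^ (3 / 2 : ℝ) :=
            Real.rpow_le_rpow (Nat.cast_nonneg _) h2 (by norm_num)
        _ = ((4 * (k : ℝ)) ^ (2 : ℕ)) ^ (3 / 2 : ℝ) := by congr 1; ring
        _ = (4 * (k : ℝ)) ^ (3 : ℕ) := by
            rw [← Real.rpow_natCast, ← Real.rpow_mul (by positivity), ← Real.rpow_natCast]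
            norm_num
        _ = 64 * (k : ℝ) ^ 3 := by ring
    have h3 : ((q : ℝ) * k) ^ 3 ≤ (2 * (n : ℝ)) ^ 3 := by
      refine pow_le_pow_left₀ (by positivity) ?_ 3
      exact_mod_cast hqk
    calc (q : ℝ) ^ 3 * (s : ℝ) ^ (3 / 2 : ℝ) ≤ (q : ℝ) ^ 3 * (64 * (k : ℝ) ^ 3) :=
          mul_le_mul_of_nonneg_left h1 (by positivity)
      _ = 64 * ((q : ℝ) * k) ^ 3 := by ring
      _ ≤ 64 * (2 * (n : ℝ)) ^ 3 := by linarith
      _ = 2 ^ 9 * (n : ℝ) ^ 3 := by ring
  · intro r
    have hdep := fun f : Flags n => blockVote_depends k ((e.symm r).1 : ℕ)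
      ((e.symm r).2.1 : ℕ) ((e.symm r).2.2 : ℕ) f
    refine ⟨isProbe_of_dependsOn _ s (hlen _ _ _) _ hdep,
      isSketch_of_dependsOn _ _ (302 * (Nat.log 2 n + 1)) (bits n) ?_ _ hdep⟩
    rw [mul_comm]
    exact Nat.mul_le_mul_left _ (hlen _ _ _)
  · intro r I
    simp only [blockVote]
    split
    · exact Or.inr rfl
    · exact Or.inl rfl
  · intro I
    constructor
    · rintro ⟨i, j, l, h1, h2, h3, h4, h5, h6, h7⟩
      have hb : ∀ x : Fin n, (x : ℕ) / k < q := fun x => by
        have : (x : ℕ) / k ≤ n / k := Nat.div_le_div_right x.2.le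
        omega
      refine ⟨e (⟨(i : ℕ) / k, hb i⟩, ⟨(j : ℕ) / k, hb j⟩, ⟨(l : ℕ) / k, hb l⟩), ?_⟩
      simp only [Equiv.symm_apply_apply, blockVote]
      rw [if_pos]
      exact ⟨i, j, l, rfl, rfl, rfl, h1, h2, h3, h4, h5, h6, h7⟩
    · rintro ⟨r, hr⟩
      simp only [blockVote] at hr
      split at hr
      · rename_i h
        obtain ⟨i, j, l, _, _, _, h1, h2, h3, h4, h5, h6, h7⟩ := h
        exact ⟨i, j, l, h1, h2, h3, h4, h5, h6, h7⟩
      · norm_num at hr

end

end Pool.Agent.Helper8.VT
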