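import Pool.Agent.Helper8.VS.Sketch

/-!
The base law and the planted laws over `ZMod Q`, and the influence of functions of three messages.
-/

set_option autoImplicit false
set_option linter.unusedSectionVars false

open Finset
open scoped BigOperators

namespace Pool.Agent.Helper8.VT

open Pool.Agent.Helper8.VS (resample' pr prc dl pr_nonneg prc_nonneg dl_nonneg expect_apply
  expect_update_apply sum_pr sum_prc expect_prc info tri_sq tri tri_bound tri_split)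

/-- Random weights of one of the three bipartite parts. -/
abbrev Cfg (m Q : ℕ) := Fin m × Fin m → ZMod Q

variable {m Q : ℕ} [NeZero Q]

/-- Average over the base distribution with three planted values. -/
noncomputable def gT (G : Cfg m Q → Cfg m Q → Cfg m Q → ℝ) (i j k : Fin m) (a b c : ZMod Q) :
    ℝ :=
  𝔼 X, 𝔼 Y, 𝔼 Z, G (Function.update X (i, j) a) (Function.update Y (j, k) b)
    (Function.update Z (k, i) c)

/-- Average over the base distribution. -/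
noncomputable def bas (G : Cfg m Q → Cfg m Q → Cfg m Q → ℝ) : ℝ := 𝔼 X, 𝔼 Y, 𝔼 Z, G X Y Z

/-- Average over the planted distribution. -/
noncomputable def pla (G : Cfg m Q → Cfg m Q → Cfg m Q → ℝ) (i j k : Fin m) : ℝ :=
  𝔼 a, 𝔼 b, gT G i j k a b (-a - b)

/-- Difference of the averages. -/
noncomputable def dT (G : Cfg m Q → Cfg m Q → Cfg m Q → ℝ) (i j k : Fin m) : ℝ :=
  pla G i j k - bas G

theorem expect_neg_sub (a : ZMod Q) (f : ZMod Q → ℝ) : 𝔼 b, f (-a - b) = 𝔼 c, f c :=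
  Fintype.expect_equiv (Equiv.subLeft (-a)) _ _ (fun _ => rfl)

theorem pla_mono (G G' : Cfg m Q → Cfg m Q → Cfg m Q → ℝ) (h : ∀ X Y Z, G X Y Z ≤ G' X Y Z)
    (i j k : Fin m) : pla G i j k ≤ pla G' i j k :=
  Finset.expect_le_expect fun _ _ => Finset.expect_le_expect fun _ _ =>
    Finset.expect_le_expect fun _ _ => Finset.expect_le_expect fun _ _ =>
      Finset.expect_le_expect fun _ _ => h _ _ _

theorem bas_mono (G G' : Cfg m Q → Cfg m Q → Cfg m Q → ℝ) (h : ∀ X Y Z, G X Y Z ≤ G' X Y Z) :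
    bas G ≤ bas G' :=
  Finset.expect_le_expect fun _ _ => Finset.expect_le_expect fun _ _ =>
    Finset.expect_le_expect fun _ _ => h _ _ _

theorem bas_nonneg (G : Cfg m Q → Cfg m Q → Cfg m Q → ℝ) (h : ∀ X Y Z, 0 ≤ G X Y Z) :
    0 ≤ bas G :=
  Finset.expect_nonneg fun _ _ => Finset.expect_nonneg fun _ _ =>
    Finset.expect_nonneg fun _ _ => h _ _ _

theorem pla_nonneg (G : Cfg m Q → Cfg m Q → Cfg m Q → ℝ) (h : ∀ X Y Z, 0 ≤ G X Y Z)
    (i j k : Fin m) : 0 ≤ pla G i j k :=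
  Finset.expect_nonneg fun _ _ => Finset.expect_nonneg fun _ _ =>
    Finset.expect_nonneg fun _ _ => Finset.expect_nonneg fun _ _ =>
      Finset.expect_nonneg fun _ _ => h _ _ _

theorem bas_add (G G' : Cfg m Q → Cfg m Q → Cfg m Q → ℝ) :
    bas (fun X Y Z => G X Y Z + G' X Y Z) = bas G + bas G' := by
  unfold bas
  simp only [Finset.expect_add_distrib]

theorem pla_add (G G' : Cfg m Q → Cfg m Q → Cfg m Q → ℝ) (i j k : Fin m) :
    pla (fun X Y Z => G X Y Z + G' X Y Z) i j k = pla G i j k + pla G' i j k := by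
  unfold pla gT
  simp only [Finset.expect_add_distrib]

theorem bas_const (c : ℝ) : bas (fun _ _ _ : Cfg m Q => c) = c := by
  unfold bas
  simp only [Finset.expect_const Finset.univ_nonempty]

theorem pla_const (c : ℝ) (i j k : Fin m) : pla (fun _ _ _ : Cfg m Q => c) i j k = c := by
  unfold pla gT
  simp only [Finset.expect_const Finset.univ_nonempty]

theorem bas_smul (c : ℝ) (G : Cfg m Q → Cfg m Q → Cfg m Q → ℝ) :
    bas (fun X Y Z => c * G X Y Z) = c * bas G := by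
  unfold bas
  simp only [← Finset.mul_expect]

theorem pla_smul (c : ℝ) (G : Cfg m Q → Cfg m Q → Cfg m Q → ℝ) (i j k : Fin m) :
    pla (fun X Y Z => c * G X Y Z) i j k = c * pla G i j k := by
  unfold pla gT
  simp only [← Finset.mul_expect]

theorem bas_sum {ι : Type} (s : Finset ι) (G : ι → Cfg m Q → Cfg m Q → Cfg m Q → ℝ) :
    bas (fun X Y Z => ∑ r ∈ s, G r X Y Z) = ∑ r ∈ s, bas (G r) := by
  unfold bas
  simp only [Finset.expect_sum_comm]

theorem pla_sum {ι : Type} (s : Finset ι) (G : ι → Cfg m Q → Cfg m Q → Cfg m Q → ℝ)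
    (i j k : Fin m) :
    pla (fun X Y Z => ∑ r ∈ s, G r X Y Z) i j k = ∑ r ∈ s, pla (G r) i j k := by
  unfold pla gT
  simp only [Finset.expect_sum_comm]

theorem dT_add (G G' : Cfg m Q → Cfg m Q → Cfg m Q → ℝ) (i j k : Fin m) :
    dT (fun X Y Z => G X Y Z + G' X Y Z) i j k = dT G i j k + dT G' i j k := by
  unfold dT
  rw [pla_add, bas_add]
  ring

theorem dT_sum {ι : Type} [Fintype ι] (a : ι → ℝ) (G : ι → Cfg m Q → Cfg m Q → Cfg m Q → ℝ)
    (i j k : Fin m) :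
    dT (fun X Y Z => ∑ s, a s * G s X Y Z) i j k = ∑ s, a s * dT (G s) i j k := by
  unfold dT
  rw [pla_sum, bas_sum, ← Finset.sum_sub_distrib]
  refine Finset.sum_congr rfl fun s _ => ?_
  rw [pla_smul, bas_smul]
  ring

/-- No dependence on the third planted weight. -/
theorem pla_no_c (G : Cfg m Q → Cfg m Q → Cfg m Q → ℝ) (i j k : Fin m)
    (h : ∀ X Y Z c, G X Y (Function.update Z (k, i) c) = G X Y Z) : pla G i j k = bas G := by
  unfold pla gT bas
  simp only [h]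
  have h1 : ∀ a : ZMod Q, 𝔼 b, 𝔼 X, 𝔼 Y, 𝔼 Z, G (Function.update X (i, j) a)
      (Function.update Y (j, k) b) Z = 𝔼 X, 𝔼 Y, 𝔼 Z, G (Function.update X (i, j) a) Y Z := by
    intro a
    rw [Finset.expect_comm]
    refine Finset.expect_congr rfl fun X _ => ?_
    exact resample' (j, k) (fun Y => 𝔼 Z, G (Function.update X (i, j) a) Y Z)
  simp only [h1]
  exact resample' (i, j) (fun X => 𝔼 Y, 𝔼 Z, G X Y Z)

theorem base_c (G : Cfg m Q → Cfg m Q → Cfg m Q → ℝ) (e : Fin m × Fin m) :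
    𝔼 c, 𝔼 X, 𝔼 Y, 𝔼 Z, G X Y (Function.update Z e c) = 𝔼 X, 𝔼 Y, 𝔼 Z, G X Y Z := by
  rw [Finset.expect_comm]
  refine Finset.expect_congr rfl fun X _ => ?_
  rw [Finset.expect_comm]
  refine Finset.expect_congr rfl fun Y _ => ?_
  exact resample' e (fun Z => G X Y Z)

/-- No dependence on the second planted weight. -/
theorem pla_no_b (G : Cfg m Q → Cfg m Q → Cfg m Q → ℝ) (i j k : Fin m)
    (h : ∀ X Y Z b, G X (Function.update Y (j, k) b) Z = G X Y Z) : pla G i j k = bas G := by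
  unfold pla gT bas
  simp only [h]
  have h1 : ∀ a : ZMod Q, 𝔼 b, 𝔼 X, 𝔼 Y, 𝔼 Z, G (Function.update X (i, j) a) Y
      (Function.update Z (k, i) (-a - b)) = 𝔼 X, 𝔼 Y, 𝔼 Z, G (Function.update X (i, j) a) Y Z := by
    intro a
    rw [expect_neg_sub a (fun c => 𝔼 X, 𝔼 Y, 𝔼 Z, G (Function.update X (i, j) a) Y
      (Function.update Z (k, i) c))]
    exact base_c (fun X Y Z => G (Function.update X (i, j) a) Y Z) (k, i)
  simp only [h1]
  exact resample' (i, j) (fun X => 𝔼 Y, 𝔼 Z, G X Y Z)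

/-- No dependence on the first planted weight. -/
theorem pla_no_a (G : Cfg m Q → Cfg m Q → Cfg m Q → ℝ) (i j k : Fin m)
    (h : ∀ X Y Z a, G (Function.update X (i, j) a) Y Z = G X Y Z) : pla G i j k = bas G := by
  unfold pla gT bas
  simp only [h]
  rw [Finset.expect_comm]
  have h1 : ∀ b : ZMod Q, 𝔼 a, 𝔼 X, 𝔼 Y, 𝔼 Z, G X (Function.update Y (j, k) b)
      (Function.update Z (k, i) (-a - b)) = 𝔼 X, 𝔼 Y, 𝔼 Z, G X (Function.update Y (j, k) b) Z := by
    intro b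
    have e : ∀ a : ZMod Q, -a - b = -b - a := fun a => by ring
    simp only [e]
    rw [expect_neg_sub b (fun c => 𝔼 X, 𝔼 Y, 𝔼 Z, G X (Function.update Y (j, k) b)
      (Function.update Z (k, i) c))]
    exact base_c (fun X Y Z => G X (Function.update Y (j, k) b) Z) (k, i)
  simp only [h1]
  rw [Finset.expect_comm]
  refine Finset.expect_congr rfl fun X _ => ?_
  exact resample' (j, k) (fun Y => 𝔼 Z, G X Y Z)

/-- Cauchy-Schwarz for the planted distribution. -/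
theorem plant_sq (f1 f2 f3 : ZMod Q → ℝ) :
    (𝔼 a, 𝔼 b, f1 a * f2 b * f3 (-a - b)) ^ 2 ≤
      (𝔼 a, f1 a ^ 2) * (𝔼 b, f2 b ^ 2) * 𝔼 c, f3 c ^ 2 := by
  have e1 : 𝔼 a, 𝔼 b, f1 a * f2 b * f3 (-a - b) =
      𝔼 p : ZMod Q × ZMod Q, (f1 p.1 * f2 p.2) * f3 (-p.1 - p.2) := by
    rw [← Finset.univ_product_univ, Finset.expect_product]
  rw [e1]
  refine (Finset.expect_mul_sq_le_sq_mul_sq _ _ _).trans (le_of_eq ?_)
  have e2 : 𝔼 p : ZMod Q × ZMod Q, (f1 p.1 * f2 p.2) ^ 2 =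
      (𝔼 a, f1 a ^ 2) * 𝔼 b, f2 b ^ 2 := by
    rw [← Finset.univ_product_univ, Finset.expect_product, Finset.expect_mul_expect]
    simp only [mul_pow]
  have e3 : 𝔼 p : ZMod Q × ZMod Q, f3 (-p.1 - p.2) ^ 2 = 𝔼 c, f3 c ^ 2 := by
    rw [← Finset.univ_product_univ, Finset.expect_product]
    simp only [fun a => expect_neg_sub a (fun c => f3 c ^ 2),
      Finset.expect_const Finset.univ_nonempty]
  rw [e2, e3]

section
variable {A1 A2 A3 : Type} [Fintype A1] [Fintype A2] [Fintype A3]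
  [DecidableEq A1] [DecidableEq A2] [DecidableEq A3]

theorem tri_gT (M1 : Cfg m Q → A1) (M2 : Cfg m Q → A2) (M3 : Cfg m Q → A3)
    (F : A1 → A2 → A3 → ℝ) (i j k : Fin m) (a b c : ZMod Q) :
    gT (fun X Y Z => F (M1 X) (M2 Y) (M3 Z)) i j k a b c =
      tri F (prc M1 (i, j) a) (prc M2 (j, k) b) (prc M3 (k, i) c) := by
  unfold gT tri
  have h3 : ∀ (l1 : A1) (l2 : A2), 𝔼 Z, F l1 l2 (M3 (Function.update Z (k, i) c)) =
      ∑ l3, prc M3 (k, i) c l3 * F l1 l2 l3 := fun l1 l2 =>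
    expect_update_apply M3 (k, i) c (fun l3 => F l1 l2 l3)
  simp only [h3]
  have h2 : ∀ (l1 : A1), 𝔼 Y, ∑ l3, prc M3 (k, i) c l3 *
      F l1 (M2 (Function.update Y (j, k) b)) l3 =
      ∑ l2, prc M2 (j, k) b l2 * ∑ l3, prc M3 (k, i) c l3 * F l1 l2 l3 := fun l1 =>
    expect_update_apply M2 (j, k) b (fun l2 => ∑ l3, prc M3 (k, i) c l3 * F l1 l2 l3)
  simp only [h2]
  exact expect_update_apply M1 (i, j) a
    (fun l1 => ∑ l2, prc M2 (j, k) b l2 * ∑ l3, prc M3 (k, i) c l3 * F l1 l2 l3)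

theorem tri_bas (M1 : Cfg m Q → A1) (M2 : Cfg m Q → A2) (M3 : Cfg m Q → A3)
    (F : A1 → A2 → A3 → ℝ) :
    bas (fun X Y Z => F (M1 X) (M2 Y) (M3 Z)) = tri F (pr M1) (pr M2) (pr M3) := by
  unfold bas tri
  have h3 : ∀ (l1 : A1) (l2 : A2), 𝔼 Z, F l1 l2 (M3 Z) =
      ∑ l3, pr M3 l3 * F l1 l2 l3 := fun l1 l2 => expect_apply M3 (fun l3 => F l1 l2 l3)
  simp only [h3]
  have h2 : ∀ (l1 : A1), 𝔼 Y, ∑ l3, pr M3 l3 * F l1 (M2 Y) l3 =
      ∑ l2, pr M2 l2 * ∑ l3, pr M3 l3 * F l1 l2 l3 := fun l1 =>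
    expect_apply M2 (fun l2 => ∑ l3, pr M3 l3 * F l1 l2 l3)
  simp only [h2]
  exact expect_apply M1 (fun l1 => ∑ l2, pr M2 l2 * ∑ l3, pr M3 l3 * F l1 l2 l3)

theorem tri_expect1 {T : Type} [Fintype T] (F : A1 → A2 → A3 → ℝ) (p : T → A1 → ℝ)
    (q : A2 → ℝ) (r : A3 → ℝ) : 𝔼 a, tri F (p a) q r = tri F (fun l => 𝔼 a, p a l) q r := by
  unfold tri
  rw [Finset.expect_sum_comm]
  simp only [Finset.expect_mul]

theorem tri_expect2 {T : Type} [Fintype T] (F : A1 → A2 → A3 → ℝ) (p : A1 → ℝ)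
    (q : T → A2 → ℝ) (r : A3 → ℝ) : 𝔼 a, tri F p (q a) r = tri F p (fun l => 𝔼 a, q a l) r := by
  unfold tri
  simp only [Finset.expect_sum_comm, ← Finset.mul_expect, ← Finset.expect_mul]

theorem tri_expect3 {T : Type} [Fintype T] (F : A1 → A2 → A3 → ℝ) (p : A1 → ℝ)
    (q : A2 → ℝ) (r : T → A3 → ℝ) : 𝔼 a, tri F p q (r a) = tri F p q (fun l => 𝔼 a, r a l) := by
  unfold tri
  simp only [Finset.expect_sum_comm, ← Finset.mul_expect, ← Finset.expect_mul]

theorem tri_zero1 (F : A1 → A2 → A3 → ℝ) (q : A2 → ℝ) (r : A3 → ℝ) :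
    tri F (fun _ => 0) q r = 0 := by
  unfold tri
  simp

theorem tri_zero2 (F : A1 → A2 → A3 → ℝ) (p : A1 → ℝ) (r : A3 → ℝ) :
    tri F p (fun _ => 0) r = 0 := by
  unfold tri
  simp

/-- Influence on one triangle. -/
theorem smp_one (M1 : Cfg m Q → A1) (M2 : Cfg m Q → A2) (M3 : Cfg m Q → A3)
    (F : A1 → A2 → A3 → ℝ) (hF : ∀ l1 l2 l3, |F l1 l2 l3| ≤ 1) (i j k : Fin m) :
    |dT (fun X Y Z => F (M1 X) (M2 Y) (M3 Z)) i j k| ≤
      𝔼 a, 𝔼 b, dl M1 (i, j) a * dl M2 (j, k) b * dl M3 (k, i) (-a - b) := by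
  set H : ZMod Q → ZMod Q → ZMod Q → ℝ := fun a b c =>
    tri F (fun l => prc M1 (i, j) a l - pr M1 l) (fun l => prc M2 (j, k) b l - pr M2 l)
      (fun l => prc M3 (k, i) c l - pr M3 l) with hH
  set N : ZMod Q → ZMod Q → ℝ := fun a b =>
    tri F (fun l => prc M1 (i, j) a l - pr M1 l) (fun l => prc M2 (j, k) b l - pr M2 l)
      (pr M3) with hN
  set U : ZMod Q → ZMod Q → ℝ := fun a c =>
    tri F (prc M1 (i, j) a) (pr M2) (prc M3 (k, i) c) with hU
  set V : ZMod Q → ZMod Q → ℝ := fun b c =>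
    tri F (pr M1) (fun l => prc M2 (j, k) b l - pr M2 l) (prc M3 (k, i) c) with hV
  have hg : ∀ a b c, gT (fun X Y Z => F (M1 X) (M2 Y) (M3 Z)) i j k a b c =
      H a b c + N a b + U a c + V b c := by
    intro a b c
    rw [tri_gT, tri_split F (pr M1) _ (pr M2) _ (pr M3) _]
  have hN0 : 𝔼 a, 𝔼 b, N a b = 0 := by
    refine Finset.expect_eq_zero fun a _ => ?_
    simp only [hN]
    rw [tri_expect2]
    have : (fun l => 𝔼 b, (prc M2 (j, k) b l - pr M2 l)) = fun _ => 0 := by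
      funext l
      rw [Finset.expect_sub_distrib, expect_prc, Finset.expect_const Finset.univ_nonempty,
        sub_self]
    rw [this, tri_zero2]
  have hU0 : 𝔼 a, 𝔼 b, U a (-a - b) = bas (fun X Y Z => F (M1 X) (M2 Y) (M3 Z)) := by
    simp only [fun a => expect_neg_sub a (fun c => U a c)]
    rw [tri_bas]
    simp only [hU, tri_expect3, expect_prc]
    rw [tri_expect1]
    simp only [expect_prc]
  have hV0 : 𝔼 a, 𝔼 b, V b (-a - b) = 0 := by
    rw [Finset.expect_comm]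
    have e : ∀ a b : ZMod Q, -a - b = -b - a := fun a b => by ring
    simp only [e]
    simp only [fun b => expect_neg_sub b (fun c => V b c)]
    simp only [hV, tri_expect3, expect_prc]
    rw [tri_expect2]
    have : (fun l => 𝔼 b, (prc M2 (j, k) b l - pr M2 l)) = fun _ => 0 := by
      funext l
      rw [Finset.expect_sub_distrib, expect_prc, Finset.expect_const Finset.univ_nonempty,
        sub_self]
    rw [this, tri_zero2]
  have e : dT (fun X Y Z => F (M1 X) (M2 Y) (M3 Z)) i j k = 𝔼 a, 𝔼 b, H a b (-a - b) := by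
    unfold dT pla
    simp only [hg, Finset.expect_add_distrib]
    rw [hN0, hU0, hV0]
    ring
  rw [e]
  exact (Finset.abs_expect_le _ _).trans (Finset.expect_le_expect fun a _ =>
      (Finset.abs_expect_le _ _).trans (Finset.expect_le_expect fun b _ =>
        tri_bound F hF _ _ _))

theorem plant_le (f1 f2 f3 : ZMod Q → ℝ) :
    𝔼 a, 𝔼 b, f1 a * f2 b * f3 (-a - b) ≤
      √(𝔼 a, f1 a ^ 2) * √(𝔼 b, f2 b ^ 2) * √(𝔼 c, f3 c ^ 2) := by
  have h := plant_sq f1 f2 f3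
  have h1 : 0 ≤ 𝔼 a, f1 a ^ 2 := Finset.expect_nonneg fun _ _ => sq_nonneg _
  have h2 : 0 ≤ 𝔼 a, f2 a ^ 2 := Finset.expect_nonneg fun _ _ => sq_nonneg _
  rw [← Real.sqrt_mul h1, ← Real.sqrt_mul (mul_nonneg h1 h2)]
  exact Real.le_sqrt_of_sq_le h

/-- Total influence of a function of three messages. -/
theorem smp_total (M1 : Cfg m Q → A1) (M2 : Cfg m Q → A2) (M3 : Cfg m Q → A3)
    (F : A1 → A2 → A3 → ℝ) (hF : ∀ l1 l2 l3, |F l1 l2 l3| ≤ 1) (B : ℕ)
    (h1 : Fintype.card A1 ≤ 2 ^ B) (h2 : Fintype.card A2 ≤ 2 ^ B)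
    (h3 : Fintype.card A3 ≤ 2 ^ B) :
    ∑ i, ∑ j, ∑ k, |dT (fun X Y Z => F (M1 X) (M2 Y) (M3 Z)) i j k| ≤ 5 * √((B : ℝ) ^ 3) := by
  set W1 : Fin m → Fin m → ℝ := fun i j => √(𝔼 a, dl M1 (i, j) a ^ 2) with hW1
  set W2 : Fin m → Fin m → ℝ := fun j k => √(𝔼 a, dl M2 (j, k) a ^ 2) with hW2
  set W3 : Fin m → Fin m → ℝ := fun k i => √(𝔼 a, dl M3 (k, i) a ^ 2) with hW3
  have hlog : ∀ N : ℕ, N ≤ 2 ^ B → 4 * Real.log N ≤ 4 * (B * Real.log 2) := by
    intro N hN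
    rcases Nat.eq_zero_or_pos N with h0 | h0
    · subst h0
      simp only [Nat.cast_zero, Real.log_zero, mul_zero]
      have := Real.log_pos (by norm_num : (1 : ℝ) < 2)
      positivity
    · have hN' : (N : ℝ) ≤ 2 ^ B := by exact_mod_cast hN
      have hl := Real.log_le_log (by exact_mod_cast h0) hN'
      rw [Real.log_pow] at hl
      linarith
  have sW : ∀ {A : Type} [Fintype A] [DecidableEq A]
      (M : Cfg m Q → A), Fintype.card A ≤ 2 ^ B →
      ∑ i, ∑ j, √(𝔼 a, dl M (i, j) a ^ 2) ^ 2 ≤ 4 * (B * Real.log 2) := by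
    intro A _ _ M hM
    have e : ∀ i j, √(𝔼 a, dl M (i, j) a ^ 2) ^ 2 = 𝔼 a, dl M (i, j) a ^ 2 := fun i j =>
      Real.sq_sqrt (Finset.expect_nonneg fun _ _ => sq_nonneg _)
    simp only [e]
    have h := info M
    rw [Fintype.sum_prod_type] at h
    exact h.trans (hlog _ hM)
  have hone : ∀ i j k, |dT (fun X Y Z => F (M1 X) (M2 Y) (M3 Z)) i j k| ≤
      W1 i j * W2 j k * W3 k i := fun i j k =>
    (smp_one M1 M2 M3 F hF i j k).trans
      (plant_le (dl M1 (i, j)) (dl M2 (j, k)) (dl M3 (k, i)))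
  have hs1 := sW M1 h1
  have hs2 := sW M2 h2
  have hs3 := sW M3 h3
  have htri := tri_sq W1 W2 W3
  have hlog2 := Real.log_two_lt_d9
  have hlog2' : 0 < Real.log 2 := Real.log_pos one_lt_two
  have hB : (0 : ℝ) ≤ B := Nat.cast_nonneg B
  have hc : (0 : ℝ) ≤ 4 * (B * Real.log 2) := by positivity
  have hS : (∑ i, ∑ j, ∑ k, W1 i j * W2 j k * W3 k i) ^ 2 ≤ (4 * (B * Real.log 2)) ^ 3 := by
    refine htri.trans ?_
    have n1 : 0 ≤ ∑ i, ∑ j, W1 i j ^ 2 :=
      Finset.sum_nonneg fun _ _ => Finset.sum_nonneg fun _ _ => sq_nonneg _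
    have n2 : 0 ≤ ∑ i, ∑ j, W2 i j ^ 2 :=
      Finset.sum_nonneg fun _ _ => Finset.sum_nonneg fun _ _ => sq_nonneg _
    have n3 : 0 ≤ ∑ i, ∑ j, W3 i j ^ 2 :=
      Finset.sum_nonneg fun _ _ => Finset.sum_nonneg fun _ _ => sq_nonneg _
    calc _ ≤ (4 * (B * Real.log 2)) * (4 * (B * Real.log 2)) * (4 * (B * Real.log 2)) :=
          mul_le_mul (mul_le_mul hs1 hs2 n2 hc) hs3 n3 (by positivity)
      _ = _ := by ring
  calc ∑ i, ∑ j, ∑ k, |dT (fun X Y Z => F (M1 X) (M2 Y) (M3 Z)) i j k|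
      ≤ ∑ i : Fin m, ∑ j : Fin m, ∑ k : Fin m, W1 i j * W2 j k * W3 k i :=
        Finset.sum_le_sum fun i _ => Finset.sum_le_sum fun j _ => Finset.sum_le_sum fun k _ =>
          hone i j k
    _ ≤ √(25 * (B : ℝ) ^ 3) := by
        refine Real.le_sqrt_of_sq_le (hS.trans ?_)
        have e3 : (4 * (B * Real.log 2)) ^ 3 = 64 * Real.log 2 ^ 3 * (B : ℝ) ^ 3 := by ring
        have e4 : Real.log 2 ^ 3 ≤ (0.6931471808 : ℝ) ^ 3 :=
          pow_le_pow_left₀ hlog2'.le hlog2.le 3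
        rw [e3]
        refine mul_le_mul_of_nonneg_right ?_ (by positivity)
        refine (mul_le_mul_of_nonneg_left e4 (by norm_num)).trans ?_
        norm_num
    _ = 5 * √((B : ℝ) ^ 3) := by
        rw [Real.sqrt_mul (by norm_num), show (25 : ℝ) = 5 ^ 2 by norm_num,
          Real.sqrt_sq (by norm_num)]

end

end Pool.Agent.Helper8.VT
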