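import Pool.Agent.Helper8.VT.TreeL

/-!
The instances: complete tripartite flags; the random weights of the third part are placed in
three copies, shifted by multiples of `Q`.
-/

set_option autoImplicit false
set_option linter.unusedSectionVars false

open Finset
open scoped BigOperators

namespace Pool.Agent.Helper8.VT

open Pool.Agent.Helper22.ETModel

section
variable {n m Q : ℕ}

/-- The variable in the cell `(u, v)` with `u` in class `p`, `v` in class `p + 1`, and the copy. -/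
def okey (m : ℕ) (u v : Fin n) : Option (Key m × ℕ) :=
  if h : (u : ℕ) % 3 = 0 ∧ (v : ℕ) % 3 = 1 ∧ (u : ℕ) / 3 < m ∧ (v : ℕ) / 3 < m then
    some ((0, (⟨(u : ℕ) / 3, h.2.2.1⟩, ⟨(v : ℕ) / 3, h.2.2.2⟩)), 0)
  else if h : (u : ℕ) % 3 = 1 ∧ (v : ℕ) % 3 = 2 ∧ (u : ℕ) / 3 < m ∧ (v : ℕ) / 9 < m then
    some ((1, (⟨(u : ℕ) / 3, h.2.2.1⟩, ⟨(v : ℕ) / 9, h.2.2.2⟩)), 0)
  else if h : (u : ℕ) % 3 = 2 ∧ (v : ℕ) % 3 = 0 ∧ (u : ℕ) / 9 < m ∧ (v : ℕ) / 3 < m then
    some ((2, (⟨(u : ℕ) / 9, h.2.2.1⟩, ⟨(v : ℕ) / 3, h.2.2.2⟩)), (u : ℕ) / 3 % 3)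
  else none

/-- The variable in a cell, and the copy. -/
def key (m : ℕ) (u v : Fin n) : Option (Key m × ℕ) :=
  match okey m u v with
  | some x => some x
  | none => okey m v u

theorem okey_some {u v : Fin n} {x : Key m × ℕ} (h : okey m u v = some x) :
    okey m v u = none := by
  unfold okey at h
  split_ifs at h with h1 h2 h3
  all_goals
    unfold okey
    rw [dif_neg (by omega), dif_neg (by omega), dif_neg (by omega)]

theorem key_comm (u v : Fin n) : key m u v = key m v u := by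
  unfold key
  rcases h1 : okey m u v with _ | x
  · rcases h2 : okey m v u with _ | y
    · rfl
    · rfl
  · rw [okey_some h1]

/-- The weights. -/
def Wt (X Y Z : Cfg m Q) (u v : Fin n) : ℤ :=
  match key m u v with
  | none => 3 * Q
  | some ((0, p), _) => ((X p).val : ℤ)
  | some ((1, p), _) => ((Y p).val : ℤ)
  | some ((2, p), c) => ((Z p).val : ℤ) - c * Q

/-- The placement. -/
def place (n m Q : ℕ) : Place n m Q where
  W := Wt
  κ u v := (key m u v).map Prod.fst
  h1 := by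
    intro X Y Z e a u v huv
    unfold Wt
    rcases hc : key m u v with _ | ⟨⟨c, p⟩, s⟩
    · rfl
    · rw [hc] at huv
      fin_cases c
      · simp only
        rw [Function.update_of_ne]
        rintro rfl
        exact huv rfl
      · rfl
      · rfl
  h2 := by
    intro X Y Z e a u v huv
    unfold Wt
    rcases hc : key m u v with _ | ⟨⟨c, p⟩, s⟩
    · rfl
    · rw [hc] at huv
      fin_cases c
      · rfl
      · simp only
        rw [Function.update_of_ne]
        rintro rfl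
        exact huv rfl
      · rfl
  h3 := by
    intro X Y Z e a u v huv
    unfold Wt
    rcases hc : key m u v with _ | ⟨⟨c, p⟩, s⟩
    · rfl
    · rw [hc] at huv
      fin_cases c
      · rfl
      · rfl
      · simp only
        rw [Function.update_of_ne]
        rintro rfl
        exact huv rfl

/-- The complete tripartite flags. -/
def fl (n : ℕ) (u v : Fin n) : Bool := decide ((u : ℕ) % 3 ≠ (v : ℕ) % 3)

/-- The instance. -/
def mkInst (n : ℕ) (X Y Z : Cfg m Q) : Inst n := ⟨fl n, Wt X Y Z⟩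

theorem mkInst_tripartite (X Y Z : Cfg m Q) : Tripartite (mkInst n X Y Z) := by
  intro u v
  simp [mkInst, fl]

variable [NeZero Q]

theorem okey_copy {u v : Fin n} {x : Key m} {c : ℕ} (h : okey m u v = some (x, c)) : c ≤ 2 := by
  unfold okey at h
  split_ifs at h with h1 h2 h3
  · simp only [Option.some.injEq, Prod.mk.injEq] at h
    omega
  · simp only [Option.some.injEq, Prod.mk.injEq] at h
    omega
  · simp only [Option.some.injEq, Prod.mk.injEq] at h
    omega

theorem key_copy {u v : Fin n} {x : Key m} {c : ℕ} (h : key m u v = some (x, c)) : c ≤ 2 := by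
  unfold key at h
  rcases h1 : okey m u v with _ | y
  · rw [h1] at h
    exact okey_copy h
  · rw [h1] at h
    simp only [Option.some.injEq] at h
    rw [h] at h1
    exact okey_copy h1

theorem Wt_bounds (X Y Z : Cfg m Q) (u v : Fin n) :
    -(2 * Q : ℤ) ≤ Wt X Y Z u v ∧ Wt X Y Z u v ≤ 3 * Q := by
  have hQ : (0 : ℤ) < Q := by
    have := NeZero.pos Q
    exact_mod_cast this
  unfold Wt
  rcases hc : key m u v with _ | ⟨⟨c, p⟩, s⟩
  · simp only
    constructor <;> linarith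
  · have hs := key_copy hc
    fin_cases c
    · have := ZMod.val_lt (X p)
      simp only
      constructor <;> omega
    · have := ZMod.val_lt (Y p)
      simp only
      constructor <;> omega
    · have := ZMod.val_lt (Z p)
      simp only
      have hs' : (s : ℤ) ≤ 2 := by exact_mod_cast hs
      have hs0 : (0 : ℤ) ≤ s := by positivity
      have hv : ((Z p).val : ℤ) < Q := by exact_mod_cast this
      have hv0 : (0 : ℤ) ≤ ((Z p).val : ℤ) := by positivity
      constructor <;> nlinarith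

theorem mkInst_valid (hQn : 3 * Q ≤ n ^ 300) (X Y Z : Cfg m Q) :
    (mkInst n X Y Z : Inst n).Valid := by
  refine ⟨?_, ?_, ?_, ?_⟩
  · intro u v
    simp only [mkInst, fl, ne_eq, eq_comm]
  · intro u
    simp [mkInst, fl]
  · intro u v
    simp only [mkInst, Wt, key_comm u v]
  · intro u v
    have hQ' : (3 * Q : ℤ) ≤ (n : ℤ) ^ 300 := by exact_mod_cast hQn
    have h := Wt_bounds X Y Z u v
    simp only [mkInst]
    rw [abs_le]
    have hQ0 : (0 : ℤ) ≤ Q := by positivity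
    constructor <;> linarith

/-- Some planted sum is zero. -/
def Zero (X Y Z : Cfg m Q) : Prop := ∃ i j k : Fin m, X (i, j) + Y (j, k) + Z (k, i) = 0

theorem Wt_comm (X Y Z : Cfg m Q) (u v : Fin n) : Wt X Y Z u v = Wt X Y Z v u := by
  unfold Wt
  rw [key_comm]

theorem Wt01 (X Y Z : Cfg m Q) (a b : Fin n) (ha : (a : ℕ) % 3 = 0) (hb : (b : ℕ) % 3 = 1)
    (h1 : (a : ℕ) / 3 < m) (h2 : (b : ℕ) / 3 < m) :
    Wt X Y Z a b = ((X (⟨(a : ℕ) / 3, h1⟩, ⟨(b : ℕ) / 3, h2⟩)).val : ℤ) := by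
  unfold Wt key okey
  rw [dif_pos ⟨ha, hb, h1, h2⟩]

theorem Wt12 (X Y Z : Cfg m Q) (a b : Fin n) (ha : (a : ℕ) % 3 = 1) (hb : (b : ℕ) % 3 = 2)
    (h1 : (a : ℕ) / 3 < m) (h2 : (b : ℕ) / 9 < m) :
    Wt X Y Z a b = ((Y (⟨(a : ℕ) / 3, h1⟩, ⟨(b : ℕ) / 9, h2⟩)).val : ℤ) := by
  unfold Wt key okey
  rw [dif_neg (by omega), dif_pos ⟨ha, hb, h1, h2⟩]

theorem Wt20 (X Y Z : Cfg m Q) (a b : Fin n) (ha : (a : ℕ) % 3 = 2) (hb : (b : ℕ) % 3 = 0)
    (h1 : (a : ℕ) / 9 < m) (h2 : (b : ℕ) / 3 < m) :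
    Wt X Y Z a b = ((Z (⟨(a : ℕ) / 9, h1⟩, ⟨(b : ℕ) / 3, h2⟩)).val : ℤ) -
      ((a : ℕ) / 3 % 3 : ℕ) * Q := by
  unfold Wt key okey
  rw [dif_neg (by omega), dif_neg (by omega), dif_pos ⟨ha, hb, h1, h2⟩]

theorem Wt_unused (X Y Z : Cfg m Q) (a b : Fin n)
    (h : (¬ ((a : ℕ) % 3 = 2) ∧ ¬ (a : ℕ) / 3 < m) ∨ ((a : ℕ) % 3 = 2 ∧ ¬ (a : ℕ) / 9 < m)) :
    Wt X Y Z a b = 3 * Q := by
  unfold Wt key okey
  rw [dif_neg (by omega), dif_neg (by omega), dif_neg (by omega), dif_neg (by omega),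
    dif_neg (by omega), dif_neg (by omega)]

theorem yes_of_zero (h9 : 9 * m ≤ n) (X Y Z : Cfg m Q) (hz : Zero X Y Z) :
    (mkInst n X Y Z : Inst n).Yes := by
  obtain ⟨i, j, k, hz⟩ := hz
  have hi := i.2
  have hj := j.2
  have hk := k.2
  set s := (X (i, j)).val + (Y (j, k)).val + (Z (k, i)).val with hs
  have h1 := ZMod.val_lt (X (i, j))
  have h2 := ZMod.val_lt (Y (j, k))
  have h3 := ZMod.val_lt (Z (k, i))
  have hdvd : Q ∣ s := by
    rw [← ZMod.natCast_eq_zero_iff, hs]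
    push_cast
    rw [ZMod.natCast_zmod_val, ZMod.natCast_zmod_val, ZMod.natCast_zmod_val]
    exact hz
  obtain ⟨c, hc⟩ := hdvd
  have hc3 : c < 3 := by
    by_contra hcon
    push Not at hcon
    have : Q * 3 ≤ Q * c := Nat.mul_le_mul_left Q hcon
    omega
  set va : Fin n := ⟨3 * i, by omega⟩ with hva
  set vb : Fin n := ⟨3 * j + 1, by omega⟩ with hvb
  set vc : Fin n := ⟨9 * k + 3 * c + 2, by omega⟩ with hvc
  have ea : (va : ℕ) = 3 * i := rfl
  have eb : (vb : ℕ) = 3 * j + 1 := rfl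
  have ec : (vc : ℕ) = 9 * k + 3 * c + 2 := rfl
  have wab : Wt X Y Z va vb = ((X (i, j)).val : ℤ) := by
    rw [Wt01 X Y Z va vb (by omega) (by omega) (by omega) (by omega)]
    have e1 : (⟨(va : ℕ) / 3, by omega⟩ : Fin m) = i := Fin.ext (by simp only; omega)
    have e2 : (⟨(vb : ℕ) / 3, by omega⟩ : Fin m) = j := Fin.ext (by simp only; omega)
    rw [e1, e2]
  have wbc : Wt X Y Z vb vc = ((Y (j, k)).val : ℤ) := by
    rw [Wt12 X Y Z vb vc (by omega) (by omega) (by omega) (by omega)]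
    have e1 : (⟨(vb : ℕ) / 3, by omega⟩ : Fin m) = j := Fin.ext (by simp only; omega)
    have e2 : (⟨(vc : ℕ) / 9, by omega⟩ : Fin m) = k := Fin.ext (by simp only; omega)
    rw [e1, e2]
  have wca : Wt X Y Z vc va = ((Z (k, i)).val : ℤ) - c * Q := by
    rw [Wt20 X Y Z vc va (by omega) (by omega) (by omega) (by omega)]
    have e1 : (⟨(vc : ℕ) / 9, by omega⟩ : Fin m) = k := Fin.ext (by simp only; omega)
    have e2 : (⟨(va : ℕ) / 3, by omega⟩ : Fin m) = i := Fin.ext (by simp only; omega)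
    have e3 : (vc : ℕ) / 3 % 3 = c := by omega
    rw [e1, e2, e3]
  refine ⟨va, vb, vc, ?_, ?_, ?_, ?_, ?_, ?_, ?_⟩
  · intro h; have := congrArg Fin.val h; omega
  · intro h; have := congrArg Fin.val h; omega
  · intro h; have := congrArg Fin.val h; omega
  · simp only [mkInst, fl, decide_eq_true_eq]; omega
  · simp only [mkInst, fl, decide_eq_true_eq]; omega
  · simp only [mkInst, fl, decide_eq_true_eq]; omega
  · simp only [mkInst]
    rw [wab, wbc, Wt_comm X Y Z va vc, wca]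
    have : ((X (i, j)).val : ℤ) + (Y (j, k)).val + (Z (k, i)).val = Q * c := by
      exact_mod_cast hc
    linarith

theorem zero_of_sorted (X Y Z : Cfg m Q) (a b c : Fin n) (ha : (a : ℕ) % 3 = 0)
    (hb : (b : ℕ) % 3 = 1) (hc : (c : ℕ) % 3 = 2)
    (hs : Wt X Y Z a b + Wt X Y Z b c + Wt X Y Z c a = 0) : Zero X Y Z := by
  have hQ : (0 : ℤ) < Q := by
    have := NeZero.pos Q
    exact_mod_cast this
  by_cases h1 : (a : ℕ) / 3 < m
  · by_cases h2 : (b : ℕ) / 3 < m
    · by_cases h3 : (c : ℕ) / 9 < m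
      · rw [Wt01 X Y Z a b ha hb h1 h2, Wt12 X Y Z b c hb hc h2 h3,
          Wt20 X Y Z c a hc ha h3 h1] at hs
        refine ⟨⟨(a : ℕ) / 3, h1⟩, ⟨(b : ℕ) / 3, h2⟩, ⟨(c : ℕ) / 9, h3⟩, ?_⟩
        have h4 := congrArg (fun z : ℤ => (z : ZMod Q)) hs
        push_cast at h4
        rw [ZMod.natCast_zmod_val, ZMod.natCast_zmod_val, ZMod.natCast_zmod_val,
          ZMod.natCast_self] at h4
        rw [mul_zero, sub_zero] at h4
        rw [← h4]
      · exfalso
        have e1 := Wt_unused X Y Z c a (Or.inr ⟨hc, h3⟩)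
        have e2 := Wt_unused X Y Z c b (Or.inr ⟨hc, h3⟩)
        rw [Wt_comm X Y Z b c, e1, e2] at hs
        have := (Wt_bounds X Y Z a b).1
        linarith
    · exfalso
      have e1 := Wt_unused X Y Z b a (Or.inl ⟨by omega, h2⟩)
      have e2 := Wt_unused X Y Z b c (Or.inl ⟨by omega, h2⟩)
      rw [Wt_comm X Y Z a b, e1, e2] at hs
      have := (Wt_bounds X Y Z c a).1
      linarith
  · exfalso
    have e1 := Wt_unused X Y Z a b (Or.inl ⟨by omega, h1⟩)
    have e2 := Wt_unused X Y Z a c (Or.inl ⟨by omega, h1⟩)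
    rw [Wt_comm X Y Z c a, e1, e2] at hs
    have := (Wt_bounds X Y Z b c).1
    linarith

theorem zero_of_yes (X Y Z : Cfg m Q) (hy : (mkInst n X Y Z : Inst n).Yes) : Zero X Y Z := by
  obtain ⟨u, v, w, _, _, _, huv, hvw, huw, hs⟩ := hy
  simp only [mkInst, fl, decide_eq_true_eq] at huv hvw huw hs
  have c1 := Wt_comm X Y Z u v
  have c2 := Wt_comm X Y Z v w
  have c3 := Wt_comm X Y Z u w
  have tri : ∀ x : ℕ, x % 3 = 0 ∨ x % 3 = 1 ∨ x % 3 = 2 := fun x => by omega
  rcases tri u with hu | hu | hu <;> rcases tri v with hv | hv | hv <;>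
    rcases tri w with hw | hw | hw <;> try (first | (exfalso; omega))
  · exact zero_of_sorted X Y Z u v w hu hv hw (by linarith)
  · exact zero_of_sorted X Y Z u w v hu hw hv (by linarith)
  · exact zero_of_sorted X Y Z v u w hv hu hw (by linarith)
  · exact zero_of_sorted X Y Z w u v hw hu hv (by linarith)
  · exact zero_of_sorted X Y Z v w u hv hw hu (by linarith)
  · exact zero_of_sorted X Y Z w v u hw hv hu (by linarith)

theorem okey_class {u v : Fin n} {c : Fin 3} {p : Fin m × Fin m} {s : ℕ}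
    (h : okey m u v = some ((c, p), s)) : (u : ℕ) % 3 = c ∧ (v : ℕ) % 3 = ((c : ℕ) + 1) % 3 := by
  unfold okey at h
  split_ifs at h with h1 h2 h3
  · simp only [Option.some.injEq, Prod.mk.injEq] at h
    obtain ⟨⟨rfl, _⟩, _⟩ := h
    exact ⟨h1.1, h1.2.1⟩
  · simp only [Option.some.injEq, Prod.mk.injEq] at h
    obtain ⟨⟨rfl, _⟩, _⟩ := h
    exact ⟨h2.1, h2.2.1⟩
  · simp only [Option.some.injEq, Prod.mk.injEq] at h
    obtain ⟨⟨rfl, _⟩, _⟩ := h
    exact ⟨h3.1, h3.2.1⟩

theorem key_class {u v : Fin n} {c : Fin 3} {p : Fin m × Fin m} {s : ℕ}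
    (h : key m u v = some ((c, p), s)) :
    ((u : ℕ) % 3 = c ∧ (v : ℕ) % 3 = ((c : ℕ) + 1) % 3) ∨
      ((v : ℕ) % 3 = c ∧ (u : ℕ) % 3 = ((c : ℕ) + 1) % 3) := by
  unfold key at h
  rcases h1 : okey m u v with _ | y
  · rw [h1] at h
    exact Or.inr (okey_class h)
  · rw [h1] at h
    simp only [Option.some.injEq] at h
    rw [h] at h1
    exact Or.inl (okey_class h1)

theorem blk_indep (p : Fin 3) (X Y Z X' Y' Z' : Cfg m Q) (h0 : p = 0 → X = X')
    (h1 : p = 1 → Y = Y') (h2 : p = 2 → Z = Z') :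
    blk p (Wt X Y Z : Wts n) = blk p (Wt X' Y' Z') := by
  funext u v
  unfold blk
  split_ifs with h
  · unfold Wt
    rcases hc : key m u v with _ | ⟨⟨c, q⟩, s⟩
    · rfl
    · have hcl := key_class hc
      have hpc : p = c := by
        have hp := p.2
        have hc' := c.2
        apply Fin.ext
        omega
      subst hpc
      fin_cases p
      · simp only; rw [h0 rfl]
      · simp only; rw [h1 rfl]
      · simp only; rw [h2 rfl]
  · rfl

end

end Pool.Agent.Helper8.VT
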