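import Pool.Agent.Helper8.VT.Defs

/-!
Sketches are functions of three messages; sketch trees and linear decision trees are protocols.
-/

set_option autoImplicit false
set_option linter.unusedSectionVars false

open Finset
open scoped BigOperators

namespace Pool.Agent.Helper8.VT

open Pool.Agent.Helper22.ETModel

variable {n : ℕ}

/-- The cell `(u, v)` belongs to player `p`. -/
def Own (p : Fin 3) (u v : Fin n) : Prop :=
  ((u : ℕ) % 3 = p ∧ ((v : ℕ) % 3 = p ∨ (v : ℕ) % 3 = (p + 1) % 3)) ∨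
    ((v : ℕ) % 3 = p ∧ ((u : ℕ) % 3 = p ∨ (u : ℕ) % 3 = (p + 1) % 3))

theorem blk_own {p : Fin 3} {u v : Fin n} (h : Own p u v) (w : Wts n) : blk p w u v = w u v := by
  unfold blk
  exact if_pos h

theorem own_unique (u v : Fin n) : (Own 0 u v ∧ ¬ Own 1 u v ∧ ¬ Own 2 u v) ∨
    (¬ Own 0 u v ∧ Own 1 u v ∧ ¬ Own 2 u v) ∨ (¬ Own 0 u v ∧ ¬ Own 1 u v ∧ Own 2 u v) := by
  unfold Own
  have h0 : ((0 : Fin 3) : ℕ) = 0 := rfl
  have h1 : ((1 : Fin 3) : ℕ) = 1 := rfl
  have h2 : ((2 : Fin 3) : ℕ) = 2 := rfl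
  rw [h0, h1, h2]
  omega

open Classical in
/-- The contribution of the block of player `p` to the sketch. -/
noncomputable def part {S : Type} [AddCommMonoid S] (φ : Fin n → Fin n → ℤ → S) (p : Fin 3)
    (w : Wts n) : S := ∑ i, ∑ j, if Own p i j then φ i j (w i j) else 0

theorem part_sum {S : Type} [AddCommMonoid S] (φ : Fin n → Fin n → ℤ → S) (w : Wts n) :
    ∑ i, ∑ j, φ i j (w i j) = part φ 0 (blk 0 w) + part φ 1 (blk 1 w) + part φ 2 (blk 2 w) := by
  classical
  unfold part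
  simp only [← Finset.sum_add_distrib]
  refine Finset.sum_congr rfl fun i _ => Finset.sum_congr rfl fun j _ => ?_
  rcases own_unique i j with ⟨h0, h1, h2⟩ | ⟨h0, h1, h2⟩ | ⟨h0, h1, h2⟩
  · rw [if_pos h0, if_neg h1, if_neg h2, blk_own h0]; simp
  · rw [if_neg h0, if_pos h1, if_neg h2, blk_own h1]; simp
  · rw [if_neg h0, if_neg h1, if_pos h2, blk_own h2]; simp

theorem isSimul_of_isSketch {B : ℕ} {H : Inst n → ℝ} (h : IsSketch B H) : IsSimul B H := by
  obtain ⟨S, iS1, iS2, hcard, φ, u, hu⟩ := h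
  obtain ⟨e⟩ : Nonempty (S ↪ Fin (2 ^ B)) :=
    Function.Embedding.nonempty_of_card_le (by rw [Fintype.card_fin]; exact hcard)
  have hne : Nonempty S := ⟨0⟩
  refine ⟨fun f p w => e (part (φ f) p w),
    fun f s => u f (Function.invFun e (s 0) + Function.invFun e (s 1) + Function.invFun e (s 2)),
    fun I hI => ?_⟩
  rw [hu I hI, part_sum]
  simp only [Function.leftInverse_invFun e.injective _]

/-- Announcing a function of the block of a player by `q` bits. -/
theorem announce (p : Fin 3) (q : ℕ) : ∀ (g : Wts n → (Fin q → Bool)) {d : ℕ}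
    (P : (Fin q → Bool) → Proto n d),
    ∃ P' : Proto n (d + q), ∀ w, P'.eval w = (P (g (blk p w))).eval w := by
  induction q with
  | zero =>
    intro g d P
    refine ⟨P (fun i => i.elim0), fun w => ?_⟩
    congr 1
    congr 1
    funext i
    exact i.elim0
  | succ q ih =>
    intro g d P
    have h : ∀ b : Bool, ∃ P' : Proto n (d + q), ∀ w, P'.eval w =
        (P (Fin.cons b (fun i => g (blk p w) i.succ))).eval w := fun b =>
      ih (fun w i => g w i.succ) (fun τ => P (Fin.cons b τ))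
    choose P' hP' using h
    refine ⟨.node p (fun w => g w 0) P', fun w => ?_⟩
    simp only [Proto.eval]
    rw [hP']
    congr 2
    funext i
    refine Fin.cases ?_ (fun i => ?_) i
    · rfl
    · rfl

theorem announce_type (p : Fin 3) (q : ℕ) {S : Type} [Fintype S] [Nonempty S]
    (hS : Fintype.card S ≤ 2 ^ q) (g : Wts n → S) {d : ℕ} (P : S → Proto n d) :
    ∃ P' : Proto n (d + q), ∀ w, P'.eval w = (P (g (blk p w))).eval w := by
  obtain ⟨e⟩ : Nonempty (S ↪ (Fin q → Bool)) :=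
    Function.Embedding.nonempty_of_card_le (by simpa using hS)
  obtain ⟨P', hP'⟩ := announce p q (fun w => e (g w)) (fun τ => P (Function.invFun e τ))
  refine ⟨P', fun w => ?_⟩
  rw [hP']
  simp only [Function.leftInverse_invFun e.injective _]

theorem proto_of_skTree {q d : ℕ} (t : SkTree n q d) :
    ∃ P : Proto n (3 * q * d), ∀ w, P.eval w = t.eval w := by
  induction t with
  | leaf v => exact ⟨.leaf v, fun w => rfl⟩
  | @node d S iS1 iS2 hS φ next ih =>
    choose P hP using ih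
    have hne : Nonempty S := ⟨0⟩
    have e : 3 * q * (d + 1) = 3 * q * d + q + q + q := by ring
    rw [e]
    have h2 : ∀ s0 s1 : S, ∃ P' : Proto n (3 * q * d + q), ∀ w, P'.eval w =
        (P (s0 + s1 + part φ 2 (blk 2 w))).eval w := fun s0 s1 =>
      announce_type 2 q hS (part φ 2) (fun s2 => P (s0 + s1 + s2))
    choose P2 hP2 using h2
    have h1 : ∀ s0 : S, ∃ P' : Proto n (3 * q * d + q + q), ∀ w, P'.eval w =
        (P2 s0 (part φ 1 (blk 1 w))).eval w := fun s0 =>
      announce_type 1 q hS (part φ 1) (fun s1 => P2 s0 s1)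
    choose P1 hP1 using h1
    obtain ⟨P0, hP0⟩ := announce_type 0 q hS (part φ 0) P1
    refine ⟨P0, fun w => ?_⟩
    rw [hP0, hP1, hP2, hP]
    simp only [SkTree.eval]
    rw [part_sum]

theorem isProto_of_isSkTree {q d : ℕ} {H : Inst n → ℝ} (h : IsSkTree q d H) :
    IsProto (3 * q * d) H := by
  obtain ⟨t, ht⟩ := h
  choose P hP using fun f => proto_of_skTree (t f)
  exact ⟨P, fun I hI => by rw [ht I hI, hP]⟩

/-- Decoding a residue. -/
theorem decode (V : ℕ) (z : ℤ) (hz : |z| ≤ V) : ((z : ZMod (2 * V + 1)).valMinAbs) = z := by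
  have : NeZero (2 * V + 1) := ⟨by omega⟩
  rw [ZMod.valMinAbs_spec]
  refine ⟨rfl, ?_⟩
  rw [abs_le] at hz
  simp only [Set.mem_Ioc]
  push_cast
  constructor <;> linarith [hz.1, hz.2]

theorem linear_bound {K : ℕ} (c : Fin n → Fin n → ℤ) (hc : ∀ i j, |c i j| ≤ K) (w : Wts n)
    (hw : ∀ i j, |w i j| ≤ (n : ℤ) ^ 300) : |∑ i, ∑ j, c i j * w i j| ≤ (K * n ^ 302 : ℕ) := by
  have h1 : ∀ i j, |c i j * w i j| ≤ (K : ℤ) * (n : ℤ) ^ 300 := by
    intro i j
    rw [abs_mul]
    exact mul_le_mul (hc i j) (hw i j) (abs_nonneg _) (by positivity)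
  calc |∑ i, ∑ j, c i j * w i j| ≤ ∑ i, ∑ j, |c i j * w i j| :=
        (Finset.abs_sum_le_sum_abs _ _).trans
          (Finset.sum_le_sum fun i _ => Finset.abs_sum_le_sum_abs _ _)
    _ ≤ ∑ _i : Fin n, ∑ _j : Fin n, (K : ℤ) * (n : ℤ) ^ 300 :=
        Finset.sum_le_sum fun i _ => Finset.sum_le_sum fun j _ => h1 i j
    _ = (K * n ^ 302 : ℕ) := by
        simp only [Finset.sum_const, Finset.card_univ, Fintype.card_fin, nsmul_eq_mul]
        push_cast
        ring

theorem skTree_of_linTree {K q d : ℕ} (hq : 2 * (K * n ^ 302) + 1 ≤ 2 ^ q) (t : LinTree n K d) :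
    ∃ t' : SkTree n q d, ∀ w : Wts n, (∀ i j, |w i j| ≤ (n : ℤ) ^ 300) →
      t'.eval w = t.eval w := by
  induction t with
  | leaf v => exact ⟨.leaf v, fun w _ => rfl⟩
  | @node d c hc next ih =>
    choose t' ht' using ih
    have : NeZero (2 * (K * n ^ 302) + 1) := ⟨by omega⟩
    refine ⟨.node (ZMod (2 * (K * n ^ 302) + 1)) inferInstance inferInstance
      (by rw [ZMod.card]; exact hq) (fun i j z => ((c i j * z : ℤ) : ZMod _))
      (fun s => t' s.valMinAbs), fun w hw => ?_⟩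
    simp only [SkTree.eval, LinTree.eval]
    have e : (∑ i, ∑ j, ((c i j * w i j : ℤ) : ZMod (2 * (K * n ^ 302) + 1))) =
        ((∑ i, ∑ j, c i j * w i j : ℤ) : ZMod (2 * (K * n ^ 302) + 1)) := by
      push_cast
      rfl
    rw [e, decode _ _ (linear_bound c hc w hw)]
    exact ht' _ w hw

theorem lin_bits (n K : ℕ) (h : 1 ≤ K * n) :
    2 * (K * n ^ 302) + 1 ≤ 2 ^ (304 * (Nat.log 2 (K * n) + 1)) := by
  set L := 2 ^ (Nat.log 2 (K * n) + 1) with hL
  have h1 : K * n ≤ L := (Nat.lt_pow_succ_log_self (by norm_num) _).le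
  have hK : K * n ^ 302 ≤ (K * n) ^ 302 := by
    rw [mul_pow]
    refine Nat.mul_le_mul_right _ ?_
    rcases Nat.eq_zero_or_pos K with h0 | h0
    · subst h0; simp at h
    · exact Nat.le_self_pow (by norm_num) K
  have h2 : (K * n) ^ 302 ≤ L ^ 302 := Nat.pow_le_pow_left h1 _
  have h3 : 1 ≤ L ^ 302 := Nat.one_le_pow _ _ (by positivity)
  have h4 : 4 ≤ L ^ 2 := by
    rw [hL, ← pow_mul]
    calc 4 = 2 ^ 2 := by norm_num
      _ ≤ _ := Nat.pow_le_pow_right (by norm_num) (by omega)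
  calc 2 * (K * n ^ 302) + 1 ≤ 4 * L ^ 302 := by omega
    _ ≤ L ^ 2 * L ^ 302 := Nat.mul_le_mul_right _ h4
    _ = L ^ 304 := by rw [← pow_add]
    _ = 2 ^ (304 * (Nat.log 2 (K * n) + 1)) := by rw [hL, ← pow_mul, mul_comm]

theorem isSkTree_of_isLinTree {K d : ℕ} (hK : 1 ≤ K * n) {H : Inst n → ℝ}
    (h : IsLinTree K d H) : IsSkTree (304 * (Nat.log 2 (K * n) + 1)) d H := by
  obtain ⟨t, ht⟩ := h
  choose t' ht' using fun f => skTree_of_linTree (lin_bits n K hK) (t f)
  exact ⟨t', fun I hI => by rw [ht I hI, ht' _ _ hI.2.2.2]⟩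

end Pool.Agent.Helper8.VT
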