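import Pool.Agent.Helper8.VT.UpperL

/-!
The vote of star checks, computed by sketch trees.
-/

set_option autoImplicit false
set_option linter.unusedSectionVars false

open Finset
open scoped BigOperators

namespace Pool.Agent.Helper8.VT

open Pool.Agent.Helper22.ETModel

variable {n : ℕ}

theorem skTree_weaken {q d : ℕ} (t : SkTree n q d) (d' : ℕ) (h : d ≤ d') :
    ∃ t' : SkTree n q d', ∀ w, t'.eval w = t.eval w := by
  induction t generalizing d' with
  | leaf v => exact ⟨.leaf v, fun w => rfl⟩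
  | @node d S iS1 iS2 hS φ next ih =>
    obtain ⟨d'', rfl⟩ : ∃ d'', d' = d'' + 1 := ⟨d' - 1, by omega⟩
    have h' : ∀ z : S, ∃ t' : SkTree n q d'', ∀ w, t'.eval w = (next z).eval w := fun z =>
      ih z d'' (by omega)
    choose t' ht' using h'
    exact ⟨.node S iS1 iS2 hS φ t', fun w => ht' _ w⟩

/-- Read the weights in the cells of a list, then continue with a tree depending on them. -/
theorem skTree_read {q d : ℕ} (hq : 2 * n ^ 300 + 1 ≤ 2 ^ q) (L : List (Fin n × Fin n))
    (G : Wts n → SkTree n q d)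
    (hG : ∀ w w' : Wts n, (∀ p ∈ L, w p.1 p.2 = w' p.1 p.2) → G w = G w') :
    ∃ t : SkTree n q (d + L.length), ∀ w : Wts n, (∀ i j, |w i j| ≤ (n : ℤ) ^ 300) →
      t.eval w = (G w).eval w := by
  induction L generalizing G with
  | nil =>
    refine ⟨G 0, fun w _ => ?_⟩
    rw [hG w 0 (by simp)]
  | cons p L ih =>
    obtain ⟨i, j⟩ := p
    have : NeZero (2 * n ^ 300 + 1) := ⟨by omega⟩
    have h : ∀ z : ℤ, ∃ t : SkTree n q (d + L.length), ∀ w : Wts n,
        (∀ i j, |w i j| ≤ (n : ℤ) ^ 300) → t.eval w =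
        (G (fun a b => if (a, b) = (i, j) then z else w a b)).eval w := by
      intro z
      refine ih (fun w => G (fun a b => if (a, b) = (i, j) then z else w a b)) ?_
      intro w w' hw
      apply hG
      intro p hp
      by_cases hpe : p = (i, j)
      · simp [hpe]
      · have hpL : p ∈ L := by
          rcases List.mem_cons.1 hp with h | h
          · exact absurd h hpe
          · exact h
        simp only [Prod.mk.eta, hpe, if_false]
        exact hw p hpL
    choose t ht using h
    refine ⟨.node (ZMod (2 * n ^ 300 + 1)) inferInstance inferInstance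
      (by rw [ZMod.card]; exact hq)
      (fun a b z => if (a, b) = (i, j) then (z : ZMod (2 * n ^ 300 + 1)) else 0)
      (fun s => t s.valMinAbs), fun w hw => ?_⟩
    simp only [SkTree.eval]
    have e : (∑ a, ∑ b, if (a, b) = (i, j) then ((w a b : ℤ) : ZMod (2 * n ^ 300 + 1)) else 0) =
        ((w i j : ℤ) : ZMod (2 * n ^ 300 + 1)) := by
      rw [Finset.sum_eq_single i, Finset.sum_eq_single j]
      · simp
      · intro b _ hb; simp [hb]
      · intro h; exact absurd (Finset.mem_univ _) h
      · intro a _ ha; simp [ha]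
      · intro h; exact absurd (Finset.mem_univ _) h
    rw [e, decode (n ^ 300) (w i j) (by push_cast; exact hw i j), ht _ w hw]
    congr 2
    funext a b
    by_cases hab : (a, b) = (i, j)
    · simp only [hab, if_true]
      simp only [Prod.mk.injEq] at hab
      rw [hab.1, hab.2]
    · simp only [hab, if_false]

/-- The zero triangles with the first vertex in block `a`, the second in block `b` (blocks of size
`t`), the third in block `c`. -/
def StarYes (s t a b c : ℕ) (f : Flags n) (w : Wts n) : Prop :=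
  ∃ i j l : Fin n, (i : ℕ) / s = a ∧ (j : ℕ) / t = b ∧ (l : ℕ) / s = c ∧
    i ≠ j ∧ j ≠ l ∧ i ≠ l ∧ f i j = true ∧ f j l = true ∧ f i l = true ∧
    w i j + w j l + w i l = 0

/-- The condition on the weight in the last cell. -/
def StarCell (s t a b c : ℕ) (f : Flags n) (w : Wts n) (i l : Fin n) (z : ℤ) : Prop :=
  ∃ j : Fin n, (i : ℕ) / s = a ∧ (j : ℕ) / t = b ∧ (l : ℕ) / s = c ∧
    i ≠ j ∧ j ≠ l ∧ i ≠ l ∧ f i j = true ∧ f j l = true ∧ f i l = true ∧
    w i j + w j l + z = 0

/-- The cells between a block of size `s` and a block of size `t`. -/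
def cells2 (n s t a b : ℕ) : Finset (Fin n × Fin n) :=
  Finset.univ.filter fun p => (p.1 : ℕ) / s = a ∧ (p.2 : ℕ) / t = b

theorem card_cells2 (s t a b : ℕ) (hs : 0 < s) (ht : 0 < t) :
    (cells2 n s t a b).card ≤ s * t := by
  have : cells2 n s t a b = (Finset.univ.filter fun i : Fin n => (i : ℕ) / s = a) ×ˢ
      (Finset.univ.filter fun i : Fin n => (i : ℕ) / t = b) := by
    ext p
    simp [cells2]
  rw [this, Finset.card_product]
  exact Nat.mul_le_mul (card_block s a hs) (card_block t b ht)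

open Classical in
/-- A star check is a sketch tree. -/
theorem star_tree (q s t a b c : ℕ) (hs : 0 < s) (ht : 0 < t) (hq : 2 * n ^ 300 + 1 ≤ 2 ^ q)
    (f : Flags n) :
    ∃ T : SkTree n q (3 * (s * t)), ∀ w : Wts n, (∀ i j, |w i j| ≤ (n : ℤ) ^ 300) →
      T.eval w = if StarYes s t a b c f w then 1 else 0 := by
  have : NeZero (2 * n ^ 300 + 1) := ⟨by omega⟩
  set L := (cells2 n s t a b).toList ++ (cells2 n t s b c).toList with hL
  set G : Wts n → SkTree n q 1 := fun w =>
    .node (ZMod (2 * n ^ 300 + 1)) inferInstance inferInstance (by rw [ZMod.card]; exact hq)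
      (fun i l z => if StarCell s t a b c f w i l z then 1 else 0)
      (fun x => .leaf (if x = 0 then 0 else 1)) with hG
  have hdep : ∀ w w' : Wts n, (∀ p ∈ L, w p.1 p.2 = w' p.1 p.2) → G w = G w' := by
    intro w w' h
    have hc1 : ∀ i j : Fin n, (i : ℕ) / s = a → (j : ℕ) / t = b → w i j = w' i j := by
      intro i j hi hj
      refine h (i, j) ?_
      simp only [hL, List.mem_append, Finset.mem_toList, cells2, Finset.mem_filter,
        Finset.mem_univ, true_and]
      exact Or.inl ⟨hi, hj⟩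
    have hc2 : ∀ i j : Fin n, (i : ℕ) / t = b → (j : ℕ) / s = c → w i j = w' i j := by
      intro i j hi hj
      refine h (i, j) ?_
      simp only [hL, List.mem_append, Finset.mem_toList, cells2, Finset.mem_filter,
        Finset.mem_univ, true_and]
      exact Or.inr ⟨hi, hj⟩
    have hcell : ∀ i l z, StarCell s t a b c f w i l z ↔ StarCell s t a b c f w' i l z := by
      intro i l z
      unfold StarCell
      constructor
      · rintro ⟨j, hi, hj, hl, r1, r2, r3, r4, r5, r6, hz⟩
        refine ⟨j, hi, hj, hl, r1, r2, r3, r4, r5, r6, ?_⟩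
        rw [← hc1 i j hi hj, ← hc2 j l hj hl]; exact hz
      · rintro ⟨j, hi, hj, hl, r1, r2, r3, r4, r5, r6, hz⟩
        refine ⟨j, hi, hj, hl, r1, r2, r3, r4, r5, r6, ?_⟩
        rw [hc1 i j hi hj, hc2 j l hj hl]; exact hz
    simp only [hG, hcell]
  obtain ⟨T, hT⟩ := skTree_read hq L G hdep
  have hlen : 1 + L.length ≤ 3 * (s * t) := by
    have h1 := card_cells2 (n := n) s t a b hs ht
    have h2 := card_cells2 (n := n) t s b c ht hs
    have h3 : 1 ≤ s * t := Nat.mul_pos hs ht
    have h4 : t * s = s * t := mul_comm _ _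
    simp only [hL, List.length_append, Finset.length_toList]
    omega
  obtain ⟨T', hT'⟩ := skTree_weaken T _ hlen
  refine ⟨T', fun w hw => ?_⟩
  rw [hT', hT w hw]
  simp only [hG, SkTree.eval]
  have hcount : (∑ i : Fin n, ∑ l : Fin n,
      if StarCell s t a b c f w i l (w i l) then (1 : ZMod (2 * n ^ 300 + 1)) else 0) =
      (((Finset.univ.filter fun p : Fin n × Fin n =>
        StarCell s t a b c f w p.1 p.2 (w p.1 p.2)).card : ℕ) : ZMod (2 * n ^ 300 + 1)) := by
    rw [Finset.card_filter, Fintype.sum_prod_type]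
    push_cast
    rfl
  rw [hcount]
  set C := (Finset.univ.filter fun p : Fin n × Fin n =>
        StarCell s t a b c f w p.1 p.2 (w p.1 p.2)).card with hC
  have hz : ((C : ℕ) : ZMod (2 * n ^ 300 + 1)) = 0 ↔ (2 * n ^ 300 + 1) ∣ C :=
    ZMod.natCast_eq_zero_iff _ _
  have hCn : C < 2 * n ^ 300 + 1 := by
    have h1 : C ≤ n * n := by
      refine (Finset.card_filter_le _ _).trans ?_
      simp
    have h2 : n * n ≤ n ^ 300 := by
      rcases Nat.eq_zero_or_pos n with h0 | h0
      · subst h0; simp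
      · calc n * n = n ^ 2 := by ring
          _ ≤ n ^ 300 := Nat.pow_le_pow_right h0 (by norm_num)
    omega
  by_cases h : StarYes s t a b c f w
  · rw [if_pos h, if_neg]
    intro hdvd
    have hC0 : C = 0 := Nat.eq_zero_of_dvd_of_lt (hz.1 hdvd) hCn
    obtain ⟨i, j, l, hi, hj, hl, r⟩ := h
    rw [hC, Finset.card_eq_zero] at hC0
    have : (i, l) ∈ (Finset.univ.filter fun p : Fin n × Fin n =>
        StarCell s t a b c f w p.1 p.2 (w p.1 p.2)) := by
      simp only [Finset.mem_filter, Finset.mem_univ, true_and]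
      exact ⟨j, hi, hj, hl, r⟩
    rw [hC0] at this
    simp at this
  · rw [if_neg h, if_pos]
    have hC0 : C = 0 := by
      rw [hC, Finset.card_eq_zero, Finset.filter_eq_empty_iff]
      rintro ⟨i, l⟩ _ ⟨j, hi, hj, hl, r⟩
      exact h ⟨i, j, l, hi, hj, hl, r⟩
    rw [hC0, Nat.cast_zero]

/-- The upper bound by star checks. -/
theorem star_upper (n s t : ℕ) (hs : 1 ≤ s) (hsn : s ≤ n) (ht : 1 ≤ t) (htn : t ≤ n) :
    ∃ (N : ℕ) (H : Fin N → Inst n → ℝ), (N : ℝ) * ((s : ℝ) ^ 2 * t) ≤ 8 * (n : ℝ) ^ 3 ∧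
      (∀ r, IsSkTree (302 * (Nat.log 2 n + 1)) (3 * (s * t)) (H r)) ∧
      (∀ r I, H r I = 0 ∨ H r I = 1) ∧
      ∀ I : Inst n, I.Yes ↔ ∃ r, H r I = 1 := by
  classical
  set qa := n / s + 1 with hqa
  set qb := n / t + 1 with hqb
  have hqak : qa * s ≤ 2 * n := by
    rw [hqa, Nat.add_mul, one_mul]
    have := Nat.div_mul_le_self n s
    omega
  have hqbk : qb * t ≤ 2 * n := by
    rw [hqb, Nat.add_mul, one_mul]
    have := Nat.div_mul_le_self n t
    omega
  set e := (Fintype.equivFin (Fin qa × Fin qb × Fin qa)) with he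
  refine ⟨Fintype.card (Fin qa × Fin qb × Fin qa), fun r I =>
    if StarYes s t (e.symm r).1 (e.symm r).2.1 (e.symm r).2.2 I.flag I.wt then 1 else 0,
    ?_, ?_, ?_, ?_⟩
  · have hq : (Fintype.card (Fin qa × Fin qb × Fin qa) : ℝ) = (qa : ℝ) ^ 2 * qb := by
      simp only [Fintype.card_prod, Fintype.card_fin]
      push_cast; ring
    rw [hq]
    have h1 : ((qa : ℝ) * s) ≤ 2 * n := by exact_mod_cast hqak
    have h2 : ((qb : ℝ) * t) ≤ 2 * n := by exact_mod_cast hqbk
    calc (qa : ℝ) ^ 2 * qb * ((s : ℝ) ^ 2 * t) = ((qa : ℝ) * s) ^ 2 * (qb * t) := by ring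
      _ ≤ (2 * (n : ℝ)) ^ 2 * (2 * n) :=
          mul_le_mul (pow_le_pow_left₀ (by positivity) h1 2) h2 (by positivity) (by positivity)
      _ = 8 * (n : ℝ) ^ 3 := by ring
  · intro r
    choose T hT using fun f : Flags n => star_tree (302 * (Nat.log 2 n + 1)) s t
      ((e.symm r).1 : ℕ) ((e.symm r).2.1 : ℕ) ((e.symm r).2.2 : ℕ) hs ht (bits n) f
    exact ⟨T, fun I hI => (hT I.flag I.wt hI.2.2.2).symm⟩
  · intro r I
    simp only
    split
    · exact Or.inr rfl
    · exact Or.inl rfl
  · intro I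
    constructor
    · rintro ⟨i, j, l, h1, h2, h3, h4, h5, h6, h7⟩
      have hba : ∀ x : Fin n, (x : ℕ) / s < qa := fun x => by
        have : (x : ℕ) / s ≤ n / s := Nat.div_le_div_right x.2.le
        omega
      have hbb : ∀ x : Fin n, (x : ℕ) / t < qb := fun x => by
        have : (x : ℕ) / t ≤ n / t := Nat.div_le_div_right x.2.le
        omega
      refine ⟨e (⟨(i : ℕ) / s, hba i⟩, ⟨(j : ℕ) / t, hbb j⟩, ⟨(l : ℕ) / s, hba l⟩), ?_⟩
      simp only [Equiv.symm_apply_apply]
      rw [if_pos]
      exact ⟨i, j, l, rfl, rfl, rfl, h1, h2, h3, h4, h5, h6, h7⟩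
    · rintro ⟨r, hr⟩
      simp only at hr
      split at hr
      · rename_i h
        obtain ⟨i, j, l, _, _, _, h1, h2, h3, h4, h5, h6, h7⟩ := h
        exact ⟨i, j, l, h1, h2, h3, h4, h5, h6, h7⟩
      · norm_num at hr

end Pool.Agent.Helper8.VT
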