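import Mathlib
import Pool.Agent.Helper22.ETModel
import Pool.Agent.Helper8.VT.Defs
import Pool.Agent.Helper8.VT.LowerL
import Pool.Agent.Helper8.VT.KindsL
import Pool.Agent.Helper8.VT.UpperL
import Pool.Agent.Helper8.VT.StarL

/-!
# Exact Triangle by votes of protocols, decision trees and sketches

A weighted vote `∑ s, a s * H s I` of voters `H s` with values between `0` and `1` separates the
yes-instances from the no-instances: it is at least `θ + 1` on the former and at most `θ` on the
latter. All voters know the flags; the difficulty is in the weights. The first part of the theorem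
says that `n ^ 3` is at most a constant times `∑ s, |a s| * κ s`, where `κ s` is the price of the
voter:

* `B ^ (3/2)` for a voter that is an arbitrary function of three simultaneous messages of `B` bits,
  one for each of three blocks of the weights; by the second part this contains all voters that are
  arbitrary functions of a mergeable sketch with `B` bits of all the weights (counters, linear
  measurements modulo a number, fingerprints, ...);
* `B ^ (3/2)` for a decision tree with `B` adaptive probes of weights;
* `B * min B n` for a communication protocol of the three block owners with `B` bits; by the third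
  and the fourth part this contains trees of `d` adaptively chosen sketches of `q` bits
  (`B = 3 q d`) and linear decision trees of depth `d` with arbitrary, dense linear forms in all
  the weights, with coefficients at most `K` (`B = O(d log (K n))`).

In particular a majority vote of `N` voters needs `N ≥ n ^ 3 / (2 ^ 23 κ)`, so with `n ^ o(1)` bits
or queries per voter the exponent is three. The last two parts show that the prices are right, up to
logarithmic factors, for every `B`: an OR of `O(n ^ 3 / s ^ (3/2))` voters, which are probe trees
with `s` probes and at the same time sketches of `O(s log n)` bits, decides Exact Triangle, and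
so does an OR of `8 n ^ 3 / (s ^ 2 t)` trees of `3 s t` sketches of `O(log n)` bits (`t = 1` for
`B ≤ n`, `s = n` for `B ≥ n`).

Idea of the proof of the lower bound: three independent random blocks; one triangle is planted by
conditioning its three weights to have the sum zero. For a voter the sum over all positions
of the triangle of the changes of its mean value, minus the changes caused by planting the
single weights and pairs (which are zero on average), is at most the price: for messages by a
three-fold Cauchy-Schwarz inequality and the entropy bound for the coordinates, for probe trees by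
the Loomis-Whitney inequality along the path, for protocols by a decomposition into boxes and the
entropy bound in each box.
-/

set_option autoImplicit false

namespace Pool.Agent.Helper8.VTOld

open Pool.Agent.Helper22.ETModel Pool.Agent.Helper8.VT

/-- Exact Triangle by votes of protocols, decision trees and sketches: the lower bound, three
inclusions between kinds of voters, and two matching upper bounds. -/
theorem result :
    (∀ n : ℕ, 3 ≤ n → ∀ (ι : Type) [Fintype ι] (H : ι → Inst n → ℝ) (κ a : ι → ℝ) (θ : ℝ),
      (∀ s, Price (H s) (κ s)) →
      (∀ I : Inst n, I.Valid → Tripartite I → I.Yes → θ + 1 ≤ ∑ s, a s * H s I) →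
      (∀ I : Inst n, I.Valid → Tripartite I → ¬ I.Yes → ∑ s, a s * H s I ≤ θ) →
      (n : ℝ) ^ 3 ≤ 2 ^ 22 * ∑ s, |a s| * κ s) ∧
    (∀ (n B : ℕ) (H : Inst n → ℝ), IsSketch B H → IsSimul B H) ∧
    (∀ (n q d : ℕ) (H : Inst n → ℝ), IsSkTree q d H → IsProto (3 * q * d) H) ∧
    (∀ (n K d : ℕ) (H : Inst n → ℝ), 1 ≤ K * n → IsLinTree K d H →
      IsSkTree (304 * (Nat.log 2 (K * n) + 1)) d H) ∧
    (∀ n s : ℕ, 3 ≤ s → s ≤ n ^ 2 → ∃ (N : ℕ) (H : Fin N → Inst n → ℝ),
      (N : ℝ) * (s : ℝ) ^ (3 / 2 : ℝ) ≤ 2 ^ 9 * (n : ℝ) ^ 3 ∧
      (∀ r, IsProbe s (H r) ∧ IsSketch (302 * (Nat.log 2 n + 1) * s) (H r)) ∧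
      (∀ r I, H r I = 0 ∨ H r I = 1) ∧
      ∀ I : Inst n, I.Yes ↔ ∃ r, H r I = 1) ∧
    (∀ n s t : ℕ, 1 ≤ s → s ≤ n → 1 ≤ t → t ≤ n → ∃ (N : ℕ) (H : Fin N → Inst n → ℝ),
      (N : ℝ) * ((s : ℝ) ^ 2 * t) ≤ 8 * (n : ℝ) ^ 3 ∧
      (∀ r, IsSkTree (302 * (Nat.log 2 n + 1)) (3 * (s * t)) (H r)) ∧
      (∀ r I, H r I = 0 ∨ H r I = 1) ∧
      ∀ I : Inst n, I.Yes ↔ ∃ r, H r I = 1) :=
  ⟨fun _ hn _ _ H κ a θ hH hyes hno => lower hn H κ hH a θ hyes hno,
    fun _ _ _ h => isSimul_of_isSketch h,
    fun _ _ _ _ h => isProto_of_isSkTree h,
    fun _ _ _ _ hK h => isSkTree_of_isLinTree hK h,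
    fun n s hs hsn => upper n s hs hsn,
    fun n s t hs hsn ht htn => star_upper n s t hs hsn ht htn⟩

end Pool.Agent.Helper8.VTOld
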