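import Pool.Agent.Helper8.VT.Defs
import Pool.Agent.Helper8.VT.Base
import Pool.Agent.Helper8.VS.TreeL

/-!
The influence of a decision tree on the planted triangles.
-/

set_option autoImplicit false
set_option linter.unusedSectionVars false

open Finset
open scoped BigOperators

namespace Pool.Agent.Helper8.VT

open Pool.Agent.Helper8.VS (tri_sq Last exists_last ind ind_nonneg ind_le_one ind_true ind_false
  Last.mem)

section
variable {n : ℕ} {K : Type}

/-- The keys of the cells read by a tree, in the order of reading. -/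
def Tree.path (κ : Fin n → Fin n → K) : {d : ℕ} → Tree n d → Wts n → List K
  | _, .leaf _, _ => []
  | _, .node i j next, w => κ i j :: (next (w i j)).path κ w

theorem Tree.path_length (κ : Fin n → Fin n → K) {d : ℕ} (t : Tree n d) (w : Wts n) :
    (t.path κ w).length ≤ d := by
  induction t with
  | leaf v => simp [Tree.path]
  | node i j next ih => simpa [Tree.path] using ih (w i j)

theorem Tree.agree (κ : Fin n → Fin n → K) {d : ℕ} (t : Tree n d) (w w' : Wts n)
    (e : K) (h : ∀ i j, κ i j ≠ e → w' i j = w i j) (he : e ∉ t.path κ w) :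
    t.path κ w' = t.path κ w ∧ t.eval w' = t.eval w := by
  induction t with
  | leaf v => exact ⟨rfl, rfl⟩
  | node i j next ih =>
    simp only [Tree.path, List.mem_cons, not_or] at he
    have hw : w' i j = w i j := h i j (fun h' => he.1 h'.symm)
    simp only [Tree.path, Tree.eval, hw]
    have := ih (w i j) he.2
    exact ⟨by rw [this.1], this.2⟩

theorem Tree.before [DecidableEq K] (κ : Fin n → Fin n → K) {d : ℕ} (t : Tree n d)
    (w w' : Wts n) (e : K) (h : ∀ i j, κ i j ≠ e → w' i j = w i j) :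
    (t.path κ w').takeWhile (fun x => decide (x ≠ e)) =
      (t.path κ w).takeWhile (fun x => decide (x ≠ e)) ∧
    (e ∈ t.path κ w' ↔ e ∈ t.path κ w) := by
  induction t with
  | leaf v => exact ⟨rfl, Iff.rfl⟩
  | node i j next ih =>
    simp only [Tree.path]
    by_cases hc : κ i j = e
    · simp [hc]
    · have hw : w' i j = w i j := h i j hc
      rw [hw]
      have := ih (w i j)
      simp only [List.mem_cons, this.2, and_true]
      rw [List.takeWhile_cons, List.takeWhile_cons, this.1]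

end

/-- The variables. -/
abbrev Key (m : ℕ) : Type := Fin 3 × (Fin m × Fin m)

/-- A placement of the random weights in the cells of an instance. -/
structure Place (n m Q : ℕ) where
  W : Cfg m Q → Cfg m Q → Cfg m Q → Wts n
  κ : Fin n → Fin n → Option (Key m)
  h1 : ∀ X Y Z e a u v, κ u v ≠ some (0, e) → W (Function.update X e a) Y Z u v = W X Y Z u v
  h2 : ∀ X Y Z e a u v, κ u v ≠ some (1, e) → W X (Function.update Y e a) Z u v = W X Y Z u v
  h3 : ∀ X Y Z e a u v, κ u v ≠ some (2, e) → W X Y (Function.update Z e a) u v = W X Y Z u v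

section
variable {n m Q D : ℕ} [NeZero Q]

theorem card_path (l : List (Option (Key m))) (D : ℕ) (hl : l.length ≤ D) (c : Fin 3) :
    ∑ i : Fin m, ∑ j : Fin m, (if some (c, (i, j)) ∈ l then (1 : ℝ) else 0) ^ 2 ≤ D := by
  classical
  have e1 : ∑ i : Fin m, ∑ j : Fin m, (if some (c, (i, j)) ∈ l then (1 : ℝ) else 0) ^ 2 =
      ((Finset.univ.filter fun p : Fin m × Fin m => some (c, p) ∈ l).card : ℝ) := by
    rw [Finset.card_filter, Fintype.sum_prod_type]
    push_cast
    refine Finset.sum_congr rfl fun i _ => Finset.sum_congr rfl fun j _ => ?_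
    split <;> simp
  rw [e1]
  have h2 : (Finset.univ.filter fun p : Fin m × Fin m => some (c, p) ∈ l).card ≤
      l.toFinset.card := by
    refine Finset.card_le_card_of_injOn (fun p => some (c, p)) ?_ ?_
    · intro p hp
      simpa using hp
    · intro p _ q _ h
      simpa using h
  have h3 := List.toFinset_card_le l
  exact_mod_cast h2.trans (h3.trans hl)

theorem Tree.inv (κ : Fin n → Fin n → Option (Key m)) (t : Tree n D) (w w' : Wts n)
    (e : Option (Key m)) (h : ∀ i j, κ i j ≠ e → w' i j = w i j)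
    (R : List (Option (Key m)) → Prop) :
    t.eval w' * ind (e ∉ t.path κ w' ∧ R (t.path κ w')) =
      t.eval w * ind (e ∉ t.path κ w ∧ R (t.path κ w)) := by
  by_cases he : e ∈ t.path κ w
  · have he' : e ∈ t.path κ w' := (t.before κ w w' e h).2.2 he
    rw [ind_false (fun h => h.1 he'), ind_false (fun h => h.1 he), mul_zero, mul_zero]
  · obtain ⟨h1, h2⟩ := t.agree κ w w' e h he
    rw [h1, h2]

theorem Tree.inv_last (κ : Fin n → Fin n → Option (Key m)) (t : Tree n D) (w w' : Wts n)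
    (e e' e'' : Option (Key m)) (h : ∀ i j, κ i j ≠ e → w' i j = w i j) :
    ind (Last (t.path κ w') e e' e'') = ind (Last (t.path κ w) e e' e'') := by
  obtain ⟨h1, h2⟩ := t.before κ w w' e h
  unfold Last
  rw [h1, h2]

/-- All three variables of the triangle are read. -/
def AllRead (P : Place n m Q) (t : Tree n D) (i j k : Fin m) (X Y Z : Cfg m Q) : Prop :=
  some (0, (i, j)) ∈ t.path P.κ (P.W X Y Z) ∧ some (1, (j, k)) ∈ t.path P.κ (P.W X Y Z) ∧
    some (2, (k, i)) ∈ t.path P.κ (P.W X Y Z)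

theorem tree_one (P : Place n m Q) (t : Tree n D)
    (h01 : ∀ X Y Z, 0 ≤ t.eval (P.W X Y Z) ∧ t.eval (P.W X Y Z) ≤ 1) (i j k : Fin m) :
    |dT (fun X Y Z => t.eval (P.W X Y Z)) i j k| ≤
      3 * bas (fun X Y Z => ind (AllRead P t i j k X Y Z)) := by
  classical
  set E1 : Option (Key m) := some (0, (i, j)) with hE1
  set E2 : Option (Key m) := some (1, (j, k)) with hE2
  set E3 : Option (Key m) := some (2, (k, i)) with hE3
  set G3 : Cfg m Q → Cfg m Q → Cfg m Q → ℝ := fun X Y Z =>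
    t.eval (P.W X Y Z) * ind (E3 ∉ t.path P.κ (P.W X Y Z) ∧ True) with hG3
  set G2 : Cfg m Q → Cfg m Q → Cfg m Q → ℝ := fun X Y Z =>
    t.eval (P.W X Y Z) * ind (E2 ∉ t.path P.κ (P.W X Y Z) ∧ E3 ∈ t.path P.κ (P.W X Y Z)) with hG2
  set G1 : Cfg m Q → Cfg m Q → Cfg m Q → ℝ := fun X Y Z =>
    t.eval (P.W X Y Z) * ind (E1 ∉ t.path P.κ (P.W X Y Z) ∧
      (E2 ∈ t.path P.κ (P.W X Y Z) ∧ E3 ∈ t.path P.κ (P.W X Y Z))) with hG1
  set G0 : Cfg m Q → Cfg m Q → Cfg m Q → ℝ := fun X Y Z =>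
    t.eval (P.W X Y Z) * ind (AllRead P t i j k X Y Z) with hG0
  have hsplit : (fun X Y Z => t.eval (P.W X Y Z)) =
      fun X Y Z => (G3 X Y Z + G2 X Y Z) + (G1 X Y Z + G0 X Y Z) := by
    funext X Y Z
    simp only [hG3, hG2, hG1, hG0, ind, AllRead, ← hE1, ← hE2, ← hE3]
    by_cases c3 : E3 ∈ t.path P.κ (P.W X Y Z) <;> by_cases c2 : E2 ∈ t.path P.κ (P.W X Y Z) <;>
      by_cases c1 : E1 ∈ t.path P.κ (P.W X Y Z) <;> simp [c1, c2, c3]
  have d3 : dT G3 i j k = 0 := sub_eq_zero.2 (pla_no_c _ _ _ _ fun X Y Z c =>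
    t.inv P.κ _ _ E3 (P.h3 X Y Z (k, i) c) (fun _ => True))
  have d2 : dT G2 i j k = 0 := sub_eq_zero.2 (pla_no_b _ _ _ _ fun X Y Z c =>
    t.inv P.κ _ _ E2 (P.h2 X Y Z (j, k) c) (fun l => E3 ∈ l))
  have d1 : dT G1 i j k = 0 := sub_eq_zero.2 (pla_no_a _ _ _ _ fun X Y Z c =>
    t.inv P.κ _ _ E1 (P.h1 X Y Z (i, j) c) (fun l => E2 ∈ l ∧ E3 ∈ l))
  set all : ℝ := bas (fun X Y Z => ind (AllRead P t i j k X Y Z)) with hall
  set L1 : Cfg m Q → Cfg m Q → Cfg m Q → ℝ := fun X Y Z =>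
    ind (Last (t.path P.κ (P.W X Y Z)) E1 E2 E3) with hL1
  set L2 : Cfg m Q → Cfg m Q → Cfg m Q → ℝ := fun X Y Z =>
    ind (Last (t.path P.κ (P.W X Y Z)) E2 E1 E3) with hL2
  set L3 : Cfg m Q → Cfg m Q → Cfg m Q → ℝ := fun X Y Z =>
    ind (Last (t.path P.κ (P.W X Y Z)) E3 E1 E2) with hL3
  have mono : ∀ p q : Prop, (p → q) → ind p ≤ ind q := by
    intro p q h
    by_cases hp : p
    · rw [ind_true hp, ind_true (h hp)]
    · rw [ind_false hp]; exact ind_nonneg _
  have all1 : bas L1 ≤ all := bas_mono _ _ fun X Y Z =>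
    mono _ _ fun h => ⟨h.mem.1, h.mem.2.1, h.mem.2.2⟩
  have all2 : bas L2 ≤ all := bas_mono _ _ fun X Y Z =>
    mono _ _ fun h => ⟨h.mem.2.1, h.mem.1, h.mem.2.2⟩
  have all3 : bas L3 ≤ all := bas_mono _ _ fun X Y Z =>
    mono _ _ fun h => ⟨h.mem.2.1, h.mem.2.2, h.mem.1⟩
  have all0 : 0 ≤ all := bas_nonneg _ fun _ _ _ => ind_nonneg _
  have hG0n : ∀ X Y Z, 0 ≤ G0 X Y Z := fun X Y Z => mul_nonneg (h01 X Y Z).1 (ind_nonneg _)
  have hG0a : bas G0 ≤ all := bas_mono _ _ fun X Y Z =>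
    mul_le_of_le_one_left (ind_nonneg _) (h01 X Y Z).2
  have hG0le : ∀ X Y Z, G0 X Y Z ≤ (L1 X Y Z + L2 X Y Z) + L3 X Y Z := by
    intro X Y Z
    have n1 := ind_nonneg (Last (t.path P.κ (P.W X Y Z)) E1 E2 E3)
    have n2 := ind_nonneg (Last (t.path P.κ (P.W X Y Z)) E2 E1 E3)
    have n3 := ind_nonneg (Last (t.path P.κ (P.W X Y Z)) E3 E1 E2)
    simp only [hG0, hL1, hL2, hL3]
    by_cases h : AllRead P t i j k X Y Z
    · rw [ind_true h, mul_one]
      have h1 := (h01 X Y Z).2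
      rcases exists_last _ E1 E2 E3 (by simp [hE1, hE2]) (by simp [hE1, hE3])
        (by simp [hE2, hE3]) h.1 h.2.1 h.2.2 with hl | hl | hl
      · rw [ind_true hl]; linarith
      · rw [ind_true hl]; linarith
      · rw [ind_true hl]; linarith
    · rw [ind_false h, mul_zero]; linarith
  have key : pla G0 i j k ≤ 3 * all := by
    have p1 := pla_no_a L1 i j k
      (fun X Y Z c => t.inv_last P.κ _ _ E1 E2 E3 (P.h1 X Y Z (i, j) c))
    have p2 := pla_no_b L2 i j k
      (fun X Y Z c => t.inv_last P.κ _ _ E2 E1 E3 (P.h2 X Y Z (j, k) c))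
    have p3 := pla_no_c L3 i j k
      (fun X Y Z c => t.inv_last P.κ _ _ E3 E1 E2 (P.h3 X Y Z (k, i) c))
    have le := pla_mono _ _ hG0le i j k
    rw [pla_add (fun X Y Z => L1 X Y Z + L2 X Y Z) L3, pla_add L1 L2, p1, p2, p3] at le
    linarith
  have d0 : |dT G0 i j k| ≤ 3 * all := by
    have n1 := pla_nonneg G0 hG0n i j k
    have n2 := bas_nonneg G0 hG0n
    rw [abs_le]
    unfold dT
    constructor <;> linarith
  rw [hsplit, dT_add, dT_add, dT_add, d3, d2, d1, zero_add, zero_add, zero_add]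
  exact d0

theorem tree_total (P : Place n m Q) (t : Tree n D)
    (h01 : ∀ X Y Z, 0 ≤ t.eval (P.W X Y Z) ∧ t.eval (P.W X Y Z) ≤ 1) :
    ∑ i, ∑ j, ∑ k, |dT (fun X Y Z => t.eval (P.W X Y Z)) i j k| ≤ 3 * √((D : ℝ) ^ 3) := by
  classical
  have hpt : ∀ X Y Z, ∑ i, ∑ j, ∑ k, ind (AllRead P t i j k X Y Z) ≤ √((D : ℝ) ^ 3) := by
    intro X Y Z
    have hl := t.path_length P.κ (P.W X Y Z)
    set l := t.path P.κ (P.W X Y Z) with hl'
    have c1 := card_path l D hl 0
    have c2 := card_path l D hl 1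
    have c3 := card_path l D hl 2
    have ht := tri_sq (fun i j : Fin m => if some (0, (i, j)) ∈ l then (1 : ℝ) else 0)
      (fun i j : Fin m => if some (1, (i, j)) ∈ l then (1 : ℝ) else 0)
      (fun i j : Fin m => if some (2, (i, j)) ∈ l then (1 : ℝ) else 0)
    have e : ∑ i, ∑ j, ∑ k, ind (AllRead P t i j k X Y Z) = ∑ i : Fin m, ∑ j : Fin m, ∑ k : Fin m,
        (if some (0, (i, j)) ∈ l then (1 : ℝ) else 0) *
          (if some (1, (j, k)) ∈ l then (1 : ℝ) else 0) *
          (if some (2, (k, i)) ∈ l then (1 : ℝ) else 0) := by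
      refine Finset.sum_congr rfl fun i _ => Finset.sum_congr rfl fun j _ =>
        Finset.sum_congr rfl fun k _ => ?_
      simp only [ind, AllRead, ← hl']
      by_cases a1 : some (0, (i, j)) ∈ l <;> by_cases a2 : some (1, (j, k)) ∈ l <;>
        by_cases a3 : some (2, (k, i)) ∈ l <;> simp [a1, a2, a3]
    rw [e]
    refine Real.le_sqrt_of_sq_le (ht.trans ?_)
    have n2 : (0 : ℝ) ≤ ∑ i : Fin m, ∑ j : Fin m,
        (if some (1, (i, j)) ∈ l then (1 : ℝ) else 0) ^ 2 :=
      Finset.sum_nonneg fun _ _ => Finset.sum_nonneg fun _ _ => sq_nonneg _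
    have n3 : (0 : ℝ) ≤ ∑ i : Fin m, ∑ j : Fin m,
        (if some (2, (i, j)) ∈ l then (1 : ℝ) else 0) ^ 2 :=
      Finset.sum_nonneg fun _ _ => Finset.sum_nonneg fun _ _ => sq_nonneg _
    have hD : (0 : ℝ) ≤ D := Nat.cast_nonneg D
    calc _ ≤ ((D : ℝ) * D) * D := mul_le_mul (mul_le_mul c1 c2 n2 hD) c3 n3 (by positivity)
      _ = _ := by ring
  calc ∑ i, ∑ j, ∑ k, |dT (fun X Y Z => t.eval (P.W X Y Z)) i j k|
      ≤ ∑ i : Fin m, ∑ j : Fin m, ∑ k : Fin m,
          3 * bas (fun X Y Z => ind (AllRead P t i j k X Y Z)) :=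
        Finset.sum_le_sum fun i _ => Finset.sum_le_sum fun j _ => Finset.sum_le_sum fun k _ =>
          tree_one P t h01 i j k
    _ = 3 * bas (fun X Y Z => ∑ i, ∑ j, ∑ k, ind (AllRead P t i j k X Y Z)) := by
        simp only [bas_sum, ← Finset.mul_sum]
    _ ≤ 3 * bas (fun _ _ _ : Cfg m Q => √((D : ℝ) ^ 3)) :=
        mul_le_mul_of_nonneg_left (bas_mono _ _ hpt) (by norm_num)
    _ = 3 * √((D : ℝ) ^ 3) := by rw [bas_const]

end

end Pool.Agent.Helper8.VT
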